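import Pool.Agent.NH20.EX.GoldSet

set_option autoImplicit false

/-! Residues along exponential sequences: the final numerical estimates. -/

namespace Pool.Agent.NH20.EX

open Finset Filter
open Pool.Agent.TH76.LehP (ev_log ev_rpow)

/-- the odd primes `p ≤ Y` modulo which `A b ^ n + C` is a nonzero square -/
def res (A b C : ℤ) (Y n : ℕ) : Finset ℕ :=
  (range (Y + 1)).filter (fun p => p.Prime ∧ p ≠ 2 ∧ jacobiSym (A * b ^ n + C) p = 1)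

theorem numer (κ c₁ θ : ℝ) (hκ : 0 < κ) (hκ4 : κ ≤ 1 / 4) (hc₁ : 0 < c₁) (hθ : 0 < θ)
    (hθ1 : θ < 1) : ∃ δ : ℝ, 0 < δ ∧ ∃ X₀ : ℕ, ∀ X : ℕ, X₀ ≤ X → ∀ g : ℝ,
    c₁ * ((⌊(X : ℝ) ^ θ⌋₊ : ℕ) / Real.log (⌊(X : ℝ) ^ θ⌋₊ : ℕ)) ≤ g → 0 < g →
    4 * ((X : ℝ) / (⌊((⌊(X : ℝ) ^ θ⌋₊ : ℕ) : ℝ) ^ (1 / 2 + κ)⌋₊ : ℕ) + 1) +
      16 * (((⌊(X : ℝ) ^ θ⌋₊ : ℕ) / (⌊((⌊(X : ℝ) ^ θ⌋₊ : ℕ) : ℝ) ^ (1 / 2 + κ)⌋₊ : ℕ)) * X / g +
        (6 * X * ((⌊(X : ℝ) ^ θ⌋₊ : ℕ) / (⌊((⌊(X : ℝ) ^ θ⌋₊ : ℕ) : ℝ) ^ (1 / 2 + κ)⌋₊ : ℕ) ^ 2) +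
          3 * (⌊(X : ℝ) ^ θ⌋₊ : ℕ) * (1 + 2 * Real.log (⌊(X : ℝ) ^ θ⌋₊ : ℕ)))) ≤
      (X : ℝ) ^ (1 - δ) := by
  set δ : ℝ := min (κ * θ) ((1 - θ) / 4) with hδ
  have hδ0 : 0 < δ := lt_min (by positivity) (by linarith)
  have hδ1 : δ ≤ κ * θ := min_le_left _ _
  have hδ2 : δ ≤ (1 - θ) / 4 := min_le_right _ _
  set s : ℝ := (1 - θ) / 2 / θ with hs
  have hs0 : 0 < s := by
    have : 0 < 1 - θ := by linarith
    positivity
  set K₁ : ℝ := 2 * (8 + 128 / c₁ + 384) with hK₁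
  set K₂ : ℝ := 48 * (1 + 2 / s) with hK₂
  have hK1 : 0 < K₁ := by positivity
  have hK2 : 0 < K₂ := by positivity
  obtain ⟨X₀, h0⟩ := eventually_atTop.1 ((ev_rpow (K₁ + K₂ + 4) δ hδ0).and
    ((ev_rpow 16 θ hθ).and (eventually_ge_atTop 1)))
  refine ⟨δ, hδ0, X₀, fun X hX g hg hg0 => ?_⟩
  obtain ⟨h1, h2, h3⟩ := h0 X hX
  have hX0 : (0 : ℝ) < X := by exact_mod_cast (by omega : 0 < X)
  have hX1 : (1 : ℝ) ≤ X := by exact_mod_cast h3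
  set Y : ℕ := ⌊(X : ℝ) ^ θ⌋₊ with hY
  have hYle : (Y : ℝ) ≤ (X : ℝ) ^ θ := Nat.floor_le (by positivity)
  have hYge : (X : ℝ) ^ θ / 2 ≤ Y := by
    have := Nat.lt_floor_add_one ((X : ℝ) ^ θ)
    rw [← hY] at this
    linarith
  have hY8 : (8 : ℝ) ≤ Y := by linarith
  have hY0 : (0 : ℝ) < Y := by linarith
  have hY1 : (1 : ℝ) ≤ Y := by linarith
  have hLY : 0 < Real.log Y := Real.log_pos (by linarith)
  set z : ℕ := ⌊(Y : ℝ) ^ (1 / 2 + κ)⌋₊ with hz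
  have hp2 : 2 ≤ (Y : ℝ) ^ (1 / 2 + κ) := by
    calc (2 : ℝ) ≤ (4 : ℝ) ^ (1 / 2 : ℝ) := by
          rw [← Real.sqrt_eq_rpow, show (4 : ℝ) = 2 ^ 2 by norm_num, Real.sqrt_sq (by norm_num)]
      _ ≤ (Y : ℝ) ^ (1 / 2 : ℝ) := Real.rpow_le_rpow (by norm_num) (by linarith) (by norm_num)
      _ ≤ _ := Real.rpow_le_rpow_of_exponent_le hY1 (by linarith)
  have hzge : (Y : ℝ) ^ (1 / 2 + κ) / 2 ≤ z := by
    have := Nat.lt_floor_add_one ((Y : ℝ) ^ (1 / 2 + κ))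
    rw [← hz] at this
    linarith
  have hz0 : (0 : ℝ) < z := lt_of_lt_of_le (by positivity) hzge
  set D : ℝ := (Y : ℝ) ^ (-(2 * κ)) with hD
  have hD0 : 0 < D := by positivity
  -- (i)
  have t1 : (X : ℝ) / z ≤ 2 * X * D := by
    rw [div_le_iff₀ hz0]
    calc (X : ℝ) = X * 1 := by ring
      _ ≤ X * (D * (Y : ℝ) ^ (1 / 2 + κ)) := by
          refine mul_le_mul_of_nonneg_left ?_ hX0.le
          rw [hD, ← Real.rpow_add hY0]
          exact Real.one_le_rpow hY1 (by linarith)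
      _ = 2 * X * D * ((Y : ℝ) ^ (1 / 2 + κ) / 2) := by ring
      _ ≤ 2 * X * D * z := by gcongr
  -- (iii)
  have hlogY : Real.log Y ≤ 4 * (Y : ℝ) ^ (1 / 4 : ℝ) := by
    have := Real.log_le_rpow_div (ε := 1 / 4) hY0.le (by norm_num)
    linarith
  have t3 : (Y / z : ℝ) * X / g ≤ 8 / c₁ * X * D := by
    rw [div_le_iff₀ hg0]
    have e1 : (Y : ℝ) / z ≤ 2 * (Y : ℝ) ^ (1 / 2 - κ) := by
      rw [div_le_iff₀ hz0]
      calc (Y : ℝ) = 2 * (Y : ℝ) ^ (1 / 2 - κ) * ((Y : ℝ) ^ (1 / 2 + κ) / 2) := by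
            rw [show 2 * (Y : ℝ) ^ (1 / 2 - κ) * ((Y : ℝ) ^ (1 / 2 + κ) / 2) =
              (Y : ℝ) ^ (1 / 2 - κ) * (Y : ℝ) ^ (1 / 2 + κ) by ring, ← Real.rpow_add hY0]
            norm_num
        _ ≤ _ := by gcongr
    have e2 : (Y : ℝ) ^ (1 / 2 - κ) ≤ 4 * (D * (Y / Real.log Y)) := by
      rw [← mul_assoc, ← mul_div_assoc, le_div_iff₀ hLY]
      calc (Y : ℝ) ^ (1 / 2 - κ) * Real.log Y ≤
            (Y : ℝ) ^ (1 / 2 - κ) * (4 * (Y : ℝ) ^ (1 / 4 : ℝ)) := by gcongr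
        _ = 4 * (Y : ℝ) ^ (3 / 4 - κ) := by
            rw [mul_left_comm, ← Real.rpow_add hY0]
            congr 2
            ring
        _ ≤ 4 * (Y : ℝ) ^ (1 - 2 * κ) := by
            refine mul_le_mul_of_nonneg_left ?_ (by norm_num)
            exact Real.rpow_le_rpow_of_exponent_le hY1 (by linarith)
        _ = 4 * D * Y := by
            rw [hD, mul_assoc]
            congr 1
            nth_rewrite 3 [← Real.rpow_one (Y : ℝ)]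
            rw [← Real.rpow_add hY0]
            congr 1
            ring
    calc (Y / z : ℝ) * X ≤ (2 * (4 * (D * (Y / Real.log Y)))) * X := by
          refine mul_le_mul_of_nonneg_right ?_ hX0.le
          linarith
      _ = 8 / c₁ * X * D * (c₁ * (Y / Real.log Y)) := by
          field_simp
          ring
      _ ≤ 8 / c₁ * X * D * g := by gcongr
  -- (iv)
  have t4 : 6 * (X : ℝ) * (Y / z ^ 2) ≤ 24 * X * D := by
    have e1 : (Y : ℝ) / z ^ 2 ≤ 4 * D := by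
      rw [div_le_iff₀ (by positivity)]
      calc (Y : ℝ) = 4 * D * ((Y : ℝ) ^ (1 / 2 + κ) / 2) ^ 2 := by
            rw [div_pow, ← Real.rpow_natCast ((Y : ℝ) ^ (1 / 2 + κ)) 2, ← Real.rpow_mul hY0.le, hD]
            rw [show 4 * (Y : ℝ) ^ (-(2 * κ)) * ((Y : ℝ) ^ ((1 / 2 + κ) * ((2 : ℕ) : ℝ)) / 2 ^ 2) =
              (Y : ℝ) ^ (-(2 * κ)) * (Y : ℝ) ^ ((1 / 2 + κ) * ((2 : ℕ) : ℝ)) by ring,
              ← Real.rpow_add hY0]
            nth_rewrite 1 [← Real.rpow_one (Y : ℝ)]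
            congr 1
            push_cast
            ring
        _ ≤ _ := by gcongr
    calc 6 * (X : ℝ) * (Y / z ^ 2) ≤ 6 * X * (4 * D) := by gcongr
      _ = _ := by ring
  -- (v)
  have t5 : 3 * (Y : ℝ) * (1 + 2 * Real.log Y) ≤ 3 * (1 + 2 / s) * (X : ℝ) ^ ((1 + θ) / 2) := by
    have e1 : Real.log Y ≤ (Y : ℝ) ^ s / s := Real.log_le_rpow_div hY0.le hs0
    have e2 : (Y : ℝ) ^ s ≤ (X : ℝ) ^ ((1 - θ) / 2) := by
      calc (Y : ℝ) ^ s ≤ ((X : ℝ) ^ θ) ^ s := Real.rpow_le_rpow hY0.le hYle hs0.le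
        _ = _ := by
            rw [← Real.rpow_mul hX0.le]
            congr 1
            rw [hs]
            field_simp
    have e3 : (1 : ℝ) ≤ (X : ℝ) ^ ((1 - θ) / 2) := Real.one_le_rpow hX1 (by linarith)
    have e4 : 1 + 2 * Real.log Y ≤ (1 + 2 / s) * (X : ℝ) ^ ((1 - θ) / 2) := by
      calc 1 + 2 * Real.log Y ≤ (X : ℝ) ^ ((1 - θ) / 2) + 2 * ((X : ℝ) ^ ((1 - θ) / 2) / s) := by
            refine add_le_add e3 ?_
            refine mul_le_mul_of_nonneg_left (e1.trans ?_) (by norm_num)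
            exact div_le_div_of_nonneg_right e2 hs0.le
        _ = _ := by ring
    calc 3 * (Y : ℝ) * (1 + 2 * Real.log Y) ≤
          3 * (X : ℝ) ^ θ * ((1 + 2 / s) * (X : ℝ) ^ ((1 - θ) / 2)) := by
          gcongr
      _ = 3 * (1 + 2 / s) * ((X : ℝ) ^ θ * (X : ℝ) ^ ((1 - θ) / 2)) := by ring
      _ = _ := by
          rw [← Real.rpow_add hX0]
          congr 2
          ring
  have hDX : X * D ≤ 2 * (X : ℝ) ^ (1 - 2 * δ) := by
    have e1 : D ≤ 2 * (X : ℝ) ^ (-(2 * κ * θ)) := by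
      calc D ≤ ((X : ℝ) ^ θ / 2) ^ (-(2 * κ)) := by
            rw [hD]
            exact Real.rpow_le_rpow_of_nonpos (by positivity) hYge (by linarith)
        _ = (X : ℝ) ^ (-(2 * κ * θ)) * (2 : ℝ) ^ (2 * κ) := by
            rw [Real.div_rpow (by positivity) (by norm_num), ← Real.rpow_mul hX0.le,
              Real.rpow_neg (by norm_num : (0 : ℝ) ≤ 2), div_inv_eq_mul]
            congr 2
            ring
        _ ≤ (X : ℝ) ^ (-(2 * κ * θ)) * 2 := by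
            refine mul_le_mul_of_nonneg_left ?_ (by positivity)
            calc (2 : ℝ) ^ (2 * κ) ≤ (2 : ℝ) ^ (1 : ℝ) :=
                  Real.rpow_le_rpow_of_exponent_le (by norm_num) (by linarith)
              _ = 2 := Real.rpow_one _
        _ = _ := by ring
    calc X * D ≤ X * (2 * (X : ℝ) ^ (-(2 * κ * θ))) := by gcongr
      _ = 2 * ((X : ℝ) ^ (1 : ℝ) * (X : ℝ) ^ (-(2 * κ * θ))) := by rw [Real.rpow_one]; ring
      _ = 2 * (X : ℝ) ^ (1 - 2 * (κ * θ)) := by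
          rw [← Real.rpow_add hX0]
          congr 2
          ring
      _ ≤ _ := by
          refine mul_le_mul_of_nonneg_left ?_ (by norm_num)
          exact Real.rpow_le_rpow_of_exponent_le hX1 (by linarith)
  have hX5 : (X : ℝ) ^ ((1 + θ) / 2) ≤ (X : ℝ) ^ (1 - 2 * δ) :=
    Real.rpow_le_rpow_of_exponent_le hX1 (by linarith)
  have hone : (1 : ℝ) ≤ (X : ℝ) ^ (1 - 2 * δ) := Real.one_le_rpow hX1 (by linarith)
  have hfin : (K₁ + K₂ + 4) * (X : ℝ) ^ (1 - 2 * δ) ≤ (X : ℝ) ^ (1 - δ) := by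
    calc (K₁ + K₂ + 4) * (X : ℝ) ^ (1 - 2 * δ) ≤ (X : ℝ) ^ δ * (X : ℝ) ^ (1 - 2 * δ) := by gcongr
      _ = _ := by
          rw [← Real.rpow_add hX0]
          congr 1
          ring
  refine le_trans ?_ hfin
  have f5 : 3 * (Y : ℝ) * (1 + 2 * Real.log Y) ≤ 3 * (1 + 2 / s) * (X : ℝ) ^ (1 - 2 * δ) :=
    t5.trans (mul_le_mul_of_nonneg_left hX5 (by positivity))
  have f3 : 8 / c₁ * X * D ≤ 16 / c₁ * (X : ℝ) ^ (1 - 2 * δ) := by
    calc 8 / c₁ * X * D = 8 / c₁ * (X * D) := by ring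
      _ ≤ 8 / c₁ * (2 * (X : ℝ) ^ (1 - 2 * δ)) := by gcongr
      _ = _ := by ring
  set W := (X : ℝ) ^ (1 - 2 * δ) with hW
  have e : (K₁ + K₂ + 4) * W = 16 * W + 256 / c₁ * W + 768 * W + 48 * (1 + 2 / s) * W + 4 * W := by
    rw [hK₁, hK₂]
    ring
  rw [e]
  have g1 : 4 * ((X : ℝ) / z + 1) ≤ 16 * W + 4 * W := by nlinarith
  have g3 : 16 * ((Y / z : ℝ) * X / g) ≤ 256 / c₁ * W := by
    have := t3.trans f3
    calc 16 * ((Y / z : ℝ) * X / g) ≤ 16 * (16 / c₁ * W) := by gcongr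
      _ = _ := by ring
  have g4 : 16 * (6 * (X : ℝ) * (Y / z ^ 2)) ≤ 768 * W := by nlinarith
  have g5 : 16 * (3 * (Y : ℝ) * (1 + 2 * Real.log Y)) ≤ 48 * (1 + 2 / s) * W := by
    calc 16 * (3 * (Y : ℝ) * (1 + 2 * Real.log Y)) ≤ 16 * (3 * (1 + 2 / s) * W) := by gcongr
      _ = _ := by ring
  linarith

theorem final : ∃ κ₀ : ℝ, 0 < κ₀ ∧ ∀ A b C : ℤ, A ≠ 0 → 2 ≤ b → C ≠ 0 →
    ∀ θ : ℝ, 0 < θ → θ < 1 → ∃ δ : ℝ, 0 < δ ∧ ∃ X₀ : ℕ, ∀ X : ℕ, X₀ ≤ X →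
      (((Ioc 0 X).filter (fun n => ((res A b C ⌊(X : ℝ) ^ θ⌋₊ n).card : ℝ) <
        κ₀ * ((X : ℝ) ^ θ / Real.log X))).card : ℝ) ≤ (X : ℝ) ^ (1 - δ) := by
  obtain ⟨c₁, κ, hc₁, hκ, hκ4, hgold⟩ := exists_gold
  refine ⟨c₁ / 8, by positivity, fun A b C hA hb hC θ hθ hθ1 => ?_⟩
  obtain ⟨t₀, ht₀⟩ := hgold A b C hA hb hC
  obtain ⟨δ, hδ, X₁, hnum⟩ := numer κ c₁ θ hκ hκ4 hc₁ hθ hθ1
  obtain ⟨X₂, h0⟩ := eventually_atTop.1 ((ev_rpow (t₀ + 1) θ hθ).and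
    ((ev_rpow 16 θ hθ).and (eventually_ge_atTop 2)))
  refine ⟨δ, hδ, max X₁ X₂, fun X hX => ?_⟩
  obtain ⟨h1, h2, h3⟩ := h0 X ((le_max_right _ _).trans hX)
  have hX1 : X₁ ≤ X := (le_max_left _ _).trans hX
  have hX0 : (0 : ℝ) < X := by exact_mod_cast (by omega : 0 < X)
  have hXr : (1 : ℝ) < X := by exact_mod_cast (by omega : 1 < X)
  set Y : ℕ := ⌊(X : ℝ) ^ θ⌋₊ with hY
  have hYle : (Y : ℝ) ≤ (X : ℝ) ^ θ := Nat.floor_le (by positivity)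
  have hYge' : (X : ℝ) ^ θ - 1 ≤ Y := by
    have := Nat.lt_floor_add_one ((X : ℝ) ^ θ)
    rw [← hY] at this
    linarith
  have htY : t₀ ≤ Y := by
    have : (t₀ : ℝ) ≤ Y := by linarith
    exact_mod_cast this
  obtain ⟨q, G, hG, hcard⟩ := ht₀ Y htY
  have hYge : (X : ℝ) ^ θ / 2 ≤ Y := by linarith
  have hY8 : (8 : ℝ) ≤ Y := by linarith
  have hLY : 0 < Real.log Y := Real.log_pos (by linarith)
  have hg0 : (0 : ℝ) < G.card := lt_of_lt_of_le (by positivity) hcard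
  have hz : 1 ≤ ⌊(Y : ℝ) ^ (1 / 2 + κ)⌋₊ := by
    rw [Nat.one_le_floor_iff]
    exact Real.one_le_rpow (by linarith) (by linarith)
  have hex := except hG hz (by exact_mod_cast hg0) X
  have hn := hnum X hX1 G.card hcard hg0
  have hlog : Real.log Y ≤ Real.log X := by
    apply Real.log_le_log (by linarith)
    calc (Y : ℝ) ≤ (X : ℝ) ^ θ := hYle
      _ ≤ (X : ℝ) ^ (1 : ℝ) := Real.rpow_le_rpow_of_exponent_le hXr.le hθ1.le
      _ = X := Real.rpow_one _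
  have hlow : c₁ / 8 * ((X : ℝ) ^ θ / Real.log X) ≤ G.card / 4 := by
    have e1 : (X : ℝ) ^ θ / Real.log X ≤ 2 * (Y / Real.log Y) := by
      rw [← mul_div_assoc]
      exact div_le_div₀ (by positivity) (by linarith) hLY hlog
    calc c₁ / 8 * ((X : ℝ) ^ θ / Real.log X) ≤ c₁ / 8 * (2 * (Y / Real.log Y)) := by gcongr
      _ = c₁ * (Y / Real.log Y) / 4 := by ring
      _ ≤ _ := by linarith
  refine le_trans ?_ (hex.trans hn)
  have hsub : (Ioc 0 X).filter (fun n => ((res A b C Y n).card : ℝ) <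
      c₁ / 8 * ((X : ℝ) ^ θ / Real.log X)) ⊆ (Ioc 0 X).filter (fun n =>
        ((G.filter (fun p => s A b C p n = 1)).card : ℝ) < G.card / 4) := by
    intro n hn
    rw [mem_filter] at hn ⊢
    refine ⟨hn.1, ?_⟩
    have h4 : G.filter (fun p => s A b C p n = 1) ⊆ res A b C Y n := by
      intro p hp
      rw [mem_filter] at hp
      unfold res
      rw [mem_filter, mem_range]
      refine ⟨Nat.lt_succ_of_le (hG.le p hp.1), hG.prime p hp.1, hG.two p hp.1, ?_⟩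
      have h5 := hp.2
      unfold s at h5
      exact_mod_cast h5
    have h6 : ((G.filter (fun p => s A b C p n = 1)).card : ℝ) ≤ (res A b C Y n).card := by
      exact_mod_cast card_le_card h4
    linarith [hn.2]
  exact_mod_cast card_le_card hsub

end Pool.Agent.NH20.EX
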