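import Pool.Agent.NH20.EX.Mom
import Pool.Agent.TH76.LehP.GoldA

set_option autoImplicit false

/-! Many primes for which the order of `b` has a large prime factor. -/

namespace Pool.Agent.NH20.EX

open Finset Filter
open Pool.Agent.TH76.LehP (goldA P1 ev_log ev_rpow)

/-- the primes `p ≤ t` for which `p - 1` has a prime factor in `(y, u]` -/
def G0 (t y u : ℕ) : Finset ℕ :=
  ((Ioc y u).filter (fun q => q.Prime)).biUnion (fun q => P1 t q)

theorem G0_card (t y u : ℕ) (hty : t ≤ y ^ 2) :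
    (∑ q ∈ (Ioc y u).filter (fun q => q.Prime), ((P1 t q).card : ℝ)) = ((G0 t y u).card : ℝ) := by
  unfold G0
  rw [card_biUnion]
  · push_cast; rfl
  · intro q hq q' hq' hne
    rw [Function.onFun, disjoint_left]
    intro p hp hp'
    rw [mem_coe, mem_filter, mem_Ioc] at hq hq'
    unfold P1 at hp hp'
    rw [mem_filter, mem_Icc] at hp hp'
    have h1 : q * q' ∣ p - 1 := Nat.Coprime.mul_dvd_of_dvd_of_dvd
      ((Nat.coprime_primes hq.2 hq'.2).2 hne) hp.2.2 hp'.2.2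
    have h2 := hp.2.1.one_lt
    have h3 := Nat.le_of_dvd (by omega) h1
    have h4 : (y + 1) * (y + 1) ≤ q * q' := Nat.mul_le_mul (by omega) (by omega)
    have h5 : p - 1 ≤ t := by omega
    have h6 : (y + 1) * (y + 1) ≤ y ^ 2 := h4.trans (h3.trans (h5.trans hty))
    nlinarith

/-- the number of the primes `p ≤ t` for which the order of `b` is at most `J` -/
theorem small_order (b : ℕ) (hb : 2 ≤ b) (J : ℕ) (S : Finset ℕ)
    (hS : ∀ p ∈ S, p.Prime ∧ ∃ j, 1 ≤ j ∧ j ≤ J ∧ p ∣ b ^ j - 1) :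
    (S.card : ℝ) ≤ 2 * Real.log b * J ^ 2 := by
  have h1 : S ⊆ (Icc 1 J).biUnion (fun j => (b ^ j - 1).primeFactors) := by
    intro p hp
    obtain ⟨h1, j, h2, h3, h4⟩ := hS p hp
    rw [mem_biUnion]
    refine ⟨j, mem_Icc.2 ⟨h2, h3⟩, ?_⟩
    rw [Nat.mem_primeFactors]
    refine ⟨h1, h4, ?_⟩
    have : 2 ≤ b ^ j := hb.trans (Nat.le_self_pow (by omega) b)
    omega
  have h2 : (S.card : ℝ) ≤ ∑ j ∈ Icc 1 J, ((b ^ j - 1).primeFactors.card : ℝ) := by
    exact_mod_cast (card_le_card h1).trans card_biUnion_le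
  have hlogb : 0 ≤ Real.log b := Real.log_natCast_nonneg _
  have h3 : ∀ j ∈ Icc 1 J, ((b ^ j - 1).primeFactors.card : ℝ) ≤ 2 * Real.log b * J := by
    intro j hj
    rw [mem_Icc] at hj
    have hbj : 2 ≤ b ^ j := hb.trans (Nat.le_self_pow (by omega) b)
    have h5 : 2 ^ (b ^ j - 1).primeFactors.card ≤ b ^ j := by
      calc 2 ^ (b ^ j - 1).primeFactors.card ≤ ∏ p ∈ (b ^ j - 1).primeFactors, p := by
            refine Finset.pow_card_le_prod _ _ _ fun p hp => ?_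
            exact (Nat.prime_of_mem_primeFactors hp).two_le
        _ ≤ b ^ j - 1 := Nat.le_of_dvd (by omega) (Nat.prod_primeFactors_dvd _)
        _ ≤ b ^ j := Nat.sub_le _ _
    have h6 : (2 : ℝ) ^ (b ^ j - 1).primeFactors.card ≤ (b : ℝ) ^ j := by exact_mod_cast h5
    have h7 := Real.log_le_log (by positivity) h6
    rw [Real.log_pow, Real.log_pow] at h7
    have h8 := Real.log_two_gt_d9
    have h9 : (0 : ℝ) ≤ (b ^ j - 1).primeFactors.card := by positivity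
    have h10 : (j : ℝ) ≤ J := by exact_mod_cast hj.2
    nlinarith
  calc (S.card : ℝ) ≤ _ := h2
    _ ≤ ∑ j ∈ Icc 1 J, 2 * Real.log b * J := sum_le_sum h3
    _ = _ := by rw [sum_const, Nat.card_Icc, nsmul_eq_mul, Nat.add_sub_cancel]; ring

/-- a function picking a prime factor of `p - 1` larger than `y`, if possible -/
noncomputable def pick (y p : ℕ) : ℕ := by
  classical
  exact if h : ∃ q : ℕ, q.Prime ∧ y < q ∧ q ∣ p - 1 then h.choose else 0

theorem pick_spec (y p : ℕ) (h : ∃ q : ℕ, q.Prime ∧ y < q ∧ q ∣ p - 1) :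
    (pick y p).Prime ∧ y < pick y p ∧ pick y p ∣ p - 1 := by
  unfold pick
  rw [dif_pos h]
  exact h.choose_spec

/-- many primes for which the order of `b` has a large prime factor -/
theorem exists_gold : ∃ c₁ κ : ℝ, 0 < c₁ ∧ 0 < κ ∧ κ ≤ 1 / 4 ∧ ∀ A b C : ℤ, A ≠ 0 → 2 ≤ b →
    C ≠ 0 → ∃ t₀ : ℕ, ∀ t : ℕ, t₀ ≤ t → ∃ (q : ℕ → ℕ) (G : Finset ℕ),
      Gold A b C t ⌊(t : ℝ) ^ (1 / 2 + κ)⌋₊ q G ∧ c₁ * (t / Real.log t) ≤ G.card := by
  obtain ⟨c₀, κ, hc₀, hκ, hκ4, T, hT⟩ := goldA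
  refine ⟨c₀ / 2, κ, by positivity, hκ, hκ4, fun A b C hA hb hC => ?_⟩
  obtain ⟨B, rfl⟩ : ∃ B : ℕ, b = B := ⟨b.toNat, by omega⟩
  have hB : 2 ≤ B := by exact_mod_cast hb
  set M : ℕ := (2 * A * B * C).natAbs with hM
  have hM0 : M ≠ 0 := by
    rw [hM, Int.natAbs_ne_zero]
    have h0 : (B : ℤ) ≠ 0 := by omega
    exact mul_ne_zero (mul_ne_zero (mul_ne_zero two_ne_zero hA) h0) hC
  have hlogB : 0 ≤ Real.log B := Real.log_natCast_nonneg _
  -- the conditions on t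
  have ev1 := ev_rpow 2 κ hκ
  have ev2 := ev_rpow (4 * M / c₀) (1 / 2) (by norm_num)
  have ev3 := ev_rpow ((32 * Real.log B + 1) * (4 / κ) / c₀) κ hκ
  have ev4 := ev_log 1
  obtain ⟨t₀, h0⟩ := eventually_atTop.1 (ev1.and (ev2.and (ev3.and (ev4.and
    (eventually_ge_atTop (max T 4))))))
  refine ⟨t₀, fun t ht => ?_⟩
  obtain ⟨h1, h2, h3, h4, h5⟩ := h0 t ht
  have hTt : T ≤ t := (le_max_left _ _).trans h5
  have ht4 : 4 ≤ t := (le_max_right _ _).trans h5
  have ht4r : (4 : ℝ) ≤ t := by exact_mod_cast ht4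
  have ht0 : (0 : ℝ) < t := by linarith
  set y : ℕ := ⌊(t : ℝ) ^ (1 / 2 + κ)⌋₊ with hy
  have hsqrt : Real.sqrt t = (t : ℝ) ^ (1 / 2 : ℝ) := Real.sqrt_eq_rpow _
  have hsq2 : 2 ≤ Real.sqrt t := by
    rw [show (2 : ℝ) = Real.sqrt (2 ^ 2) by rw [Real.sqrt_sq (by norm_num)]]
    exact Real.sqrt_le_sqrt (by linarith)
  have hyr : (y : ℝ) ≤ (t : ℝ) ^ (1 / 2 + κ) := Nat.floor_le (by positivity)
  have hrp : (t : ℝ) ^ (1 / 2 + κ) = Real.sqrt t * (t : ℝ) ^ κ := by
    rw [hsqrt, ← Real.rpow_add ht0]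
  have hylow : (t : ℝ) ^ (1 / 2 + κ) / 2 ≤ y := by
    have := Nat.lt_floor_add_one ((t : ℝ) ^ (1 / 2 + κ))
    rw [← hy] at this
    have h6 : 2 ≤ (t : ℝ) ^ (1 / 2 + κ) := by
      rw [hrp]; nlinarith
    linarith
  have hysq : Real.sqrt t ≤ y := by
    refine le_trans ?_ hylow
    rw [hrp]
    nlinarith [Real.sqrt_nonneg (t : ℝ)]
  have hty : t ≤ y ^ 2 := by
    have : (t : ℝ) ≤ (y : ℝ) ^ 2 := by
      calc (t : ℝ) = Real.sqrt t ^ 2 := (Real.sq_sqrt ht0.le).symm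
        _ ≤ _ := pow_le_pow_left₀ (Real.sqrt_nonneg _) hysq 2
    exact_mod_cast this
  have hmain := hT t y hTt hty hyr
  set u : ℕ := ⌊(t : ℝ) ^ (1 - κ)⌋₊ with hu
  rw [G0_card t y u hty] at hmain
  -- the gold set
  set bad1 := (G0 t y u).filter (fun p => p ∣ M) with hbad1
  set bad2 := ((G0 t y u).filter (fun p => ¬ p ∣ M)).filter
    (fun p => ¬ pick y p ∣ orderOf ((B : ℤ) : ZMod p)) with hbad2
  set G := ((G0 t y u).filter (fun p => ¬ p ∣ M)).filter
    (fun p => pick y p ∣ orderOf ((B : ℤ) : ZMod p)) with hG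
  have memG0 : ∀ p ∈ G0 t y u, p.Prime ∧ p ≤ t ∧ ∃ q : ℕ, q.Prime ∧ y < q ∧ q ∣ p - 1 := by
    intro p hp
    unfold G0 at hp
    rw [mem_biUnion] at hp
    obtain ⟨q, hq, hp⟩ := hp
    rw [mem_filter, mem_Ioc] at hq
    unfold P1 at hp
    rw [mem_filter, mem_Icc] at hp
    exact ⟨hp.2.1, hp.1.2, q, hq.2, hq.1.1, hp.2.2⟩
  have notM : ∀ p : ℕ, ¬ p ∣ M → p ≠ 2 ∧ ¬ (p : ℤ) ∣ A ∧ ¬ (p : ℤ) ∣ B ∧ ¬ (p : ℤ) ∣ C := by
    intro p h
    rw [hM, ← Int.natCast_dvd] at h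
    refine ⟨fun h2 => h ?_, fun h2 => h ?_, fun h2 => h ?_, fun h2 => h ?_⟩
    · rw [h2]; exact ⟨A * B * C, by push_cast; ring⟩
    · obtain ⟨e, he⟩ := h2; exact ⟨2 * e * B * C, by rw [he]; ring⟩
    · obtain ⟨e, he⟩ := h2; exact ⟨2 * A * e * C, by rw [he]; ring⟩
    · obtain ⟨e, he⟩ := h2; exact ⟨2 * A * B * e, by rw [he]; ring⟩
  have hgold : Gold A B C t y (pick y) G := by
    have hm : ∀ p ∈ G, p ∈ G0 t y u ∧ ¬ p ∣ M ∧ pick y p ∣ orderOf ((B : ℤ) : ZMod p) := by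
      intro p hp
      rw [hG, mem_filter, mem_filter] at hp
      exact ⟨hp.1.1, hp.1.2, hp.2⟩
    exact {
      prime := fun p hp => (memG0 p (hm p hp).1).1
      two := fun p hp => (notM p (hm p hp).2.1).1
      le := fun p hp => (memG0 p (hm p hp).1).2.1
      nA := fun p hp => (notM p (hm p hp).2.1).2.1
      nb := fun p hp => (notM p (hm p hp).2.1).2.2.1
      nC := fun p hp => (notM p (hm p hp).2.1).2.2.2
      qp := fun p hp => (pick_spec y p (memG0 p (hm p hp).1).2.2).1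
      qz := fun p hp => (pick_spec y p (memG0 p (hm p hp).1).2.2).2.1
      qd := fun p hp => (hm p hp).2.2 }
  refine ⟨pick y, G, hgold, ?_⟩
  have hcard : (G0 t y u).card = bad1.card + (bad2.card + G.card) := by
    rw [← card_filter_add_card_filter_not (s := G0 t y u) (fun p => p ∣ M),
      ← card_filter_add_card_filter_not (s := (G0 t y u).filter (fun p => ¬ p ∣ M))
        (fun p => pick y p ∣ orderOf ((B : ℤ) : ZMod p))]
    rw [hbad1, hbad2, hG]
    omega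
  -- primes dividing M
  have hb1 : (bad1.card : ℝ) ≤ M := by
    have : bad1.card ≤ (Icc 1 M).card := by
      apply card_le_card
      intro p hp
      rw [hbad1, mem_filter] at hp
      rw [mem_Icc]
      exact ⟨(memG0 p hp.1).1.one_le, Nat.le_of_dvd (by omega) hp.2⟩
    rw [Nat.card_Icc, Nat.add_sub_cancel] at this
    exact_mod_cast this
  -- primes with small order
  have hb2 : (bad2.card : ℝ) ≤ 2 * Real.log B * ((t / y : ℕ) : ℝ) ^ 2 := by
    refine small_order B hB (t / y) bad2 fun p hp => ?_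
    rw [hbad2, mem_filter, mem_filter] at hp
    obtain ⟨⟨hp1, hp2⟩, hp3⟩ := hp
    obtain ⟨g1, g2, g3⟩ := memG0 p hp1
    have : Fact p.Prime := ⟨g1⟩
    obtain ⟨q1, q2, q3⟩ := pick_spec y p g3
    have hnb := (notM p hp2).2.2.1
    have hod : orderOf ((B : ℤ) : ZMod p) ∣ p - 1 := order_dvd p hnb
    set o := orderOf ((B : ℤ) : ZMod p) with ho
    have hp1' := g1.one_lt
    have hopos : 0 < o := Nat.pos_of_dvd_of_pos hod (by omega)
    refine ⟨g1, o, hopos, ?_, ?_⟩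
    · -- o * q ∣ p - 1
      have hcop : Nat.Coprime o (pick y p) := by
        rw [Nat.coprime_comm]
        exact (Nat.Prime.coprime_iff_not_dvd q1).2 hp3
      have h6 : o * pick y p ∣ p - 1 := Nat.Coprime.mul_dvd_of_dvd_of_dvd hcop hod q3
      have h7 := Nat.le_of_dvd (by omega) h6
      rw [Nat.le_div_iff_mul_le (by
        have : (0 : ℝ) < y := lt_of_lt_of_le (by positivity) hysq
        exact_mod_cast this)]
      calc o * y ≤ o * pick y p := Nat.mul_le_mul_left o q2.le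
        _ ≤ p - 1 := h7
        _ ≤ t := (Nat.sub_le _ _).trans g2
    · have h6 : ((B : ℤ) : ZMod p) ^ o = 1 := pow_orderOf_eq_one _
      have h7 : ((B ^ o - 1 : ℕ) : ZMod p) = 0 := by
        rw [Nat.cast_sub (Nat.one_le_pow _ _ (by omega))]
        push_cast
        push_cast at h6
        rw [h6, sub_self]
      exact (ZMod.natCast_eq_zero_iff _ _).1 h7
  -- numerics
  have hL : 0 < Real.log t := by linarith
  have ypos : (0 : ℝ) < y := lt_of_lt_of_le (by positivity) hysq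
  have n1 : ((t / y : ℕ) : ℝ) ^ 2 ≤ 4 * (t : ℝ) ^ (1 - 2 * κ) := by
    have g1 : ((t / y : ℕ) : ℝ) ≤ t / y := Nat.cast_div_le
    have g2 : (t : ℝ) / y ≤ 2 * (t : ℝ) ^ (1 / 2 - κ) := by
      rw [div_le_iff₀ ypos]
      calc (t : ℝ) = 2 * (t : ℝ) ^ (1 / 2 - κ) * ((t : ℝ) ^ (1 / 2 + κ) / 2) := by
            rw [show 2 * (t : ℝ) ^ (1 / 2 - κ) * ((t : ℝ) ^ (1 / 2 + κ) / 2) =
              (t : ℝ) ^ (1 / 2 - κ) * (t : ℝ) ^ (1 / 2 + κ) by ring, ← Real.rpow_add ht0]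
            norm_num
        _ ≤ _ := by gcongr
    calc ((t / y : ℕ) : ℝ) ^ 2 ≤ (2 * (t : ℝ) ^ (1 / 2 - κ)) ^ 2 :=
          pow_le_pow_left₀ (by positivity) (g1.trans g2) 2
      _ = _ := by
          rw [mul_pow, ← Real.rpow_natCast ((t : ℝ) ^ (1 / 2 - κ)) 2, ← Real.rpow_mul ht0.le]
          norm_num
          congr 1
          ring
  have hlogt : Real.log t ≤ (t : ℝ) ^ (κ / 1) / κ := by
    rw [div_one]
    exact Real.log_le_rpow_div ht0.le hκ
  have n2 : (M : ℝ) ≤ c₀ / 4 * (t / Real.log t) := by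
    have g1 : Real.log t ≤ Real.sqrt t := by
      have := Real.log_le_rpow_div (ε := 1 / 4) ht0.le (by norm_num)
      have g2 : Real.log t = 2 * Real.log (Real.sqrt t) := by
        rw [Real.log_sqrt ht0.le]; ring
      rw [g2]
      set w := Real.sqrt t
      have g3 : Real.log (w / 2) ≤ w / 2 - 1 := Real.log_le_sub_one_of_pos (by positivity)
      rw [Real.log_div (by positivity) (by norm_num)] at g3
      have g4 := Real.log_two_lt_d9
      linarith
    have g3 : 4 * M / c₀ ≤ Real.sqrt t := by rw [hsqrt]; exact h2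
    have g4 : Real.sqrt t ≤ t / Real.log t := by
      rw [le_div_iff₀ hL]
      nlinarith [Real.sq_sqrt ht0.le, Real.sqrt_nonneg (t : ℝ)]
    rw [div_le_iff₀ hc₀] at g3
    nlinarith
  have n3 : 2 * Real.log B * (4 * (t : ℝ) ^ (1 - 2 * κ)) ≤ c₀ / 4 * (t / Real.log t) := by
    have g0 : (t : ℝ) = (t : ℝ) ^ (1 - 2 * κ) * ((t : ℝ) ^ κ * (t : ℝ) ^ κ) := by
      rw [← Real.rpow_add ht0, ← Real.rpow_add ht0]
      rw [show 1 - 2 * κ + (κ + κ) = 1 by ring, Real.rpow_one]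
    have hlogt' : Real.log t ≤ (t : ℝ) ^ κ / κ := by rw [div_one] at hlogt; exact hlogt
    set w := (t : ℝ) ^ κ with hw
    have hw0 : 0 < w := by positivity
    have g1 : 32 * Real.log B * (1 / κ) ≤ c₀ * w := by
      have := h3
      rw [div_le_iff₀ hc₀] at this
      have hk : 0 < 1 / κ := by positivity
      have e : (32 * Real.log B + 1) * (4 / κ) = 4 * (32 * Real.log B * (1 / κ)) + 4 * (1 / κ) := by
        ring
      rw [e] at this
      nlinarith [mul_nonneg hlogB hk.le]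
    have g2 : w ≤ t / Real.log t / (t : ℝ) ^ (1 - 2 * κ) * (1 / κ) := by
      have hx : 0 < (t : ℝ) ^ (1 - 2 * κ) := by positivity
      rw [div_div, div_mul_eq_mul_div, le_div_iff₀ (by positivity)]
      rw [le_div_iff₀ hκ] at hlogt'
      calc w * (Real.log t * (t : ℝ) ^ (1 - 2 * κ)) = (w * (t : ℝ) ^ (1 - 2 * κ)) * Real.log t := by
            ring
        _ ≤ (w * (t : ℝ) ^ (1 - 2 * κ)) * (w * (1 / κ)) := by
            refine mul_le_mul_of_nonneg_left ?_ (by positivity)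
            rw [mul_one_div, le_div_iff₀ hκ]
            exact hlogt'
        _ = (t : ℝ) ^ (1 - 2 * κ) * (w * w) * (1 / κ) := by ring
        _ = t * (1 / κ) := by rw [← g0]
    have hx : 0 < (t : ℝ) ^ (1 - 2 * κ) := by positivity
    have g3 : 32 * Real.log B * (1 / κ) ≤
        c₀ * (t / Real.log t / (t : ℝ) ^ (1 - 2 * κ)) * (1 / κ) := by
      refine g1.trans ?_
      rw [mul_assoc]
      exact mul_le_mul_of_nonneg_left g2 hc₀.le
    have g4 : 32 * Real.log B ≤ c₀ * (t / Real.log t / (t : ℝ) ^ (1 - 2 * κ)) :=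
      le_of_mul_le_mul_right g3 (by positivity)
    have g5 := mul_le_mul_of_nonneg_right g4 hx.le
    have g6 : c₀ * (t / Real.log t / (t : ℝ) ^ (1 - 2 * κ)) * (t : ℝ) ^ (1 - 2 * κ) =
        c₀ * (t / Real.log t) := by
      field_simp
    rw [g6] at g5
    linarith
  have hcr : ((G0 t y u).card : ℝ) = bad1.card + (bad2.card + G.card) := by exact_mod_cast hcard
  have hb2' : (bad2.card : ℝ) ≤ c₀ / 4 * (t / Real.log t) := by
    refine hb2.trans (le_trans ?_ n3)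
    exact mul_le_mul_of_nonneg_left n1 (by positivity)
  linarith

end Pool.Agent.NH20.EX
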