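import Mathlib

set_option autoImplicit false
set_option linter.unusedSectionVars false

/-! Sums over cyclic subgroups by averaging over the whole group. -/

namespace Pool.Agent.NH20.EX

open Finset

section

variable {G : Type*} [CommGroup G] [Fintype G] [DecidableEq G]

/-- the twisted sum of `F` over the coset of `x` -/
noncomputable def S (w : G) [NeZero (orderOf w)] (F : G → ℝ) (k : ZMod (orderOf w)) (x : G) : ℂ :=
  ∑ r : ZMod (orderOf w), (F (x * w ^ r.val) : ℂ) * (ZMod.stdAddChar (k * r) : ℂ)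

theorem pow_val_add_one (w : G) [NeZero (orderOf w)] (r : ZMod (orderOf w)) :
    w ^ (r + 1).val = w ^ r.val * w := by
  have h1 : ((r + 1).val : ZMod (orderOf w)) = ((r.val + 1 : ℕ) : ZMod (orderOf w)) := by
    push_cast
    rw [ZMod.natCast_zmod_val, ZMod.natCast_zmod_val]
  rw [ZMod.natCast_eq_natCast_iff] at h1
  rw [pow_eq_pow_iff_modEq.2 h1, pow_succ]

theorem S_shift (w : G) [NeZero (orderOf w)] (F : G → ℝ) (k : ZMod (orderOf w)) (x : G) :
    ‖S w F k (x * w)‖ = ‖S w F k x‖ := by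
  have h : S w F k (x * w) = (ZMod.stdAddChar (-k) : ℂ) * S w F k x := by
    unfold S
    rw [mul_sum, ← Equiv.sum_comp (Equiv.addRight (1 : ZMod (orderOf w)))
      (fun r => (ZMod.stdAddChar (-k) : ℂ) *
        ((F (x * w ^ r.val) : ℂ) * (ZMod.stdAddChar (k * r) : ℂ)))]
    refine sum_congr rfl fun r _ => ?_
    rw [Equiv.coe_addRight, pow_val_add_one, mul_left_comm, ← AddChar.map_add_eq_mul]
    congr 2
    · congr 1
      rw [mul_assoc, mul_comm w]
    · congr 1
      ring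
  rw [h, norm_mul]
  have : ‖(ZMod.stdAddChar (-k) : ℂ)‖ = 1 := AddChar.norm_apply _ _
  rw [this, one_mul]

theorem S_pow (w : G) [NeZero (orderOf w)] (F : G → ℝ) (k : ZMod (orderOf w)) (m : ℕ) :
    ‖S w F k (w ^ m)‖ = ‖S w F k 1‖ := by
  induction m with
  | zero => rw [pow_zero]
  | succ m ih => rw [pow_succ, S_shift, ih]

theorem total (w : G) [NeZero (orderOf w)] (F : G → ℝ) (k : ZMod (orderOf w)) (B : ℝ)
    (hB : ∀ r : ZMod (orderOf w), ∑ r' : ZMod (orderOf w),
      |∑ x : G, F (x * w ^ r.val) * F (x * w ^ r'.val)| ≤ B) :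
    ‖S w F k 1‖ ^ 2 ≤ B := by
  have hT : (0 : ℝ) < (orderOf w : ℝ) := by exact_mod_cast (NeZero.pos (orderOf w))
  have h1 : (orderOf w : ℝ) * ‖S w F k 1‖ ^ 2 ≤ ∑ x : G, ‖S w F k x‖ ^ 2 := by
    calc (orderOf w : ℝ) * ‖S w F k 1‖ ^ 2 = ∑ m ∈ range (orderOf w), ‖S w F k (w ^ m)‖ ^ 2 := by
          rw [sum_congr rfl (fun m _ => by rw [S_pow]), sum_const, card_range, nsmul_eq_mul]
      _ = ∑ x ∈ (range (orderOf w)).image (fun m => w ^ m), ‖S w F k x‖ ^ 2 := by
          rw [sum_image]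
          intro a ha b hb h
          rw [coe_range, Set.mem_Iio] at ha hb
          exact pow_injOn_Iio_orderOf ha hb h
      _ ≤ ∑ x : G, ‖S w F k x‖ ^ 2 :=
          sum_le_sum_of_subset_of_nonneg (subset_univ _) fun x _ _ => sq_nonneg _
  have h2 : ((∑ x : G, ‖S w F k x‖ ^ 2 : ℝ) : ℂ) = ∑ r : ZMod (orderOf w),
      ∑ r' : ZMod (orderOf w), (ZMod.stdAddChar (k * r) : ℂ) *
        (starRingEnd ℂ) (ZMod.stdAddChar (k * r') : ℂ) *
        ((∑ x : G, F (x * w ^ r.val) * F (x * w ^ r'.val) : ℝ) : ℂ) := by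
    have h3 : ∀ x : G, ((‖S w F k x‖ ^ 2 : ℝ) : ℂ) = ∑ r : ZMod (orderOf w),
        ∑ r' : ZMod (orderOf w), (ZMod.stdAddChar (k * r) : ℂ) *
        (starRingEnd ℂ) (ZMod.stdAddChar (k * r') : ℂ) *
        ((F (x * w ^ r.val) * F (x * w ^ r'.val) : ℝ) : ℂ) := by
      intro x
      rw [← Complex.normSq_eq_norm_sq, ← Complex.mul_conj]
      unfold S
      rw [map_sum, sum_mul_sum]
      refine sum_congr rfl fun r _ => sum_congr rfl fun r' _ => ?_
      rw [RingHom.map_mul, Complex.conj_ofReal]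
      push_cast
      ring
    rw [Complex.ofReal_sum, sum_congr rfl (fun x _ => h3 x), sum_comm]
    refine sum_congr rfl fun r _ => ?_
    rw [sum_comm]
    refine sum_congr rfl fun r' _ => ?_
    rw [← mul_sum, Complex.ofReal_sum]
  have h4 : ∑ x : G, ‖S w F k x‖ ^ 2 ≤ (orderOf w : ℝ) * B := by
    have h5 : (0 : ℝ) ≤ ∑ x : G, ‖S w F k x‖ ^ 2 := sum_nonneg fun x _ => sq_nonneg _
    calc ∑ x : G, ‖S w F k x‖ ^ 2 = ‖((∑ x : G, ‖S w F k x‖ ^ 2 : ℝ) : ℂ)‖ := by
          rw [Complex.norm_real, Real.norm_of_nonneg h5]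
      _ ≤ ∑ r : ZMod (orderOf w), ∑ r' : ZMod (orderOf w),
          |∑ x : G, F (x * w ^ r.val) * F (x * w ^ r'.val)| := by
          rw [h2]
          refine (norm_sum_le _ _).trans (sum_le_sum fun r _ => (norm_sum_le _ _).trans
            (sum_le_sum fun r' _ => ?_))
          rw [norm_mul, norm_mul, RCLike.norm_conj, Complex.norm_real, Real.norm_eq_abs]
          have : ∀ j : ZMod (orderOf w), ‖(ZMod.stdAddChar j : ℂ)‖ = 1 := fun j =>
            AddChar.norm_apply _ _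
          rw [this, this, one_mul, one_mul]
      _ ≤ ∑ r : ZMod (orderOf w), B := sum_le_sum fun r _ => hB r
      _ = _ := by rw [sum_const, card_univ, ZMod.card, nsmul_eq_mul]
  exact le_of_mul_le_mul_left (h1.trans h4) hT

end

end Pool.Agent.NH20.EX
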