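import Pool.Agent.NH20.EX.Fin
import Pool.Agent.NH20.RP.Rep
import Pool.Agent.Y549.SP.SPL

set_option autoImplicit false

/-! Split primes in the fields generated by the square roots of an exponential sequence. -/

namespace Pool.Agent.NH20.EX

open Finset
open Pool.Agent.NH20.RP (NegFund thr fund_mod)

/-- the number of the split primes `p ≤ y` -/
noncomputable def splitUpTo (y : ℝ) (d : ℤ) : ℕ := Set.ncard {p : ℕ | p.Prime ∧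
  (p : ℝ) ≤ y ∧ ¬ (p : ℤ) ∣ d ∧ ∃ x : ℤ, (4 * (p : ℤ)) ∣ x ^ 2 - d}

/-- the number of the split primes below the threshold of the question -/
noncomputable def N (d : ℤ) : ℕ := Set.ncard {p : ℕ | p.Prime ∧
  (p : ℝ) < thr d ∧ ¬ (p : ℤ) ∣ d ∧ ∃ x : ℤ, (4 * (p : ℤ)) ∣ x ^ 2 - d}

theorem jac_of (P d k : ℤ) (h : d * k ^ 2 = 4 * P) (p : ℕ) (hp : p.Prime) (hp2 : p ≠ 2)
    (hj : jacobiSym P p = 1) : jacobiSym d p = 1 := by
  have : Fact p.Prime := ⟨hp⟩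
  have h1 : jacobiSym (d * k ^ 2) p = 1 := by
    rw [h, Pool.Agent.Y549.SP.SPL.jac_four P p hp hp2, hj]
  rw [jacobiSym.mul_left, jacobiSym.pow_left] at h1
  rcases jacobiSym.trichotomy k p with h2 | h2 | h2
  · rw [h2] at h1; norm_num at h1
  · rw [h2] at h1; simpa using h1
  · rw [h2] at h1; simpa using h1

theorem res_le (A b C d k : ℤ) (hd : NegFund d) (n : ℕ) (h : d * k ^ 2 = 4 * (A * b ^ n + C))
    (y : ℝ) (hy : 0 ≤ y) : (res A b C ⌊y⌋₊ n).card ≤ splitUpTo y d := by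
  unfold splitUpTo
  rw [← Set.ncard_coe_finset]
  refine Set.ncard_le_ncard (fun p hp => ?_) ?_
  · rw [mem_coe] at hp
    unfold res at hp
    rw [mem_filter, mem_range] at hp
    obtain ⟨h1, h2, h3, h4⟩ := hp
    have h5 := (Pool.Agent.Y549.SP.SPL.split_iff d (fund_mod d hd) p h2 h3).2
      (jac_of _ d k h p h2 h3 h4)
    refine ⟨h2, ?_, h5⟩
    exact (Nat.le_floor_iff hy).1 (Nat.lt_succ_iff.1 h1)
  · refine (Set.finite_Iio (⌈y⌉₊ + 1)).subset fun p hp => ?_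
    rw [Set.mem_Iio]
    have h1 : (p : ℝ) ≤ y := hp.2.1
    have h2 := Nat.le_ceil y
    have : (p : ℝ) ≤ ⌈y⌉₊ := by linarith
    have : p ≤ ⌈y⌉₊ := by exact_mod_cast this
    omega

theorem split_le_N (y : ℝ) (d : ℤ) (h : y < thr d) : splitUpTo y d ≤ N d := by
  unfold splitUpTo N
  refine Set.ncard_le_ncard (fun p hp => ?_) ?_
  · exact ⟨hp.1, lt_of_le_of_lt hp.2.1 h, hp.2.2⟩
  · refine (Set.finite_Iio (⌈thr d⌉₊ + 1)).subset fun p hp => ?_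
    rw [Set.mem_Iio]
    have h1 : (p : ℝ) < thr d := hp.2.1
    have h2 := Nat.le_ceil (thr d)
    have : (p : ℝ) < ⌈thr d⌉₊ := by linarith
    have : p < ⌈thr d⌉₊ := by exact_mod_cast this
    omega

theorem last : ∃ κ : ℝ, 0 < κ ∧ ∀ a b c : ℤ, 0 < a → 2 ≤ b → c ≠ 0 →
    ∀ θ : ℝ, 0 < θ → θ < 1 → ∃ δ : ℝ, 0 < δ ∧ ∃ X₀ : ℕ, ∀ X : ℕ, X₀ ≤ X →
      ({n : ℕ | 1 ≤ n ∧ n ≤ X ∧ ∃ d k : ℤ, NegFund d ∧ k ≠ 0 ∧
        d * k ^ 2 = -4 * (a * b ^ n + c) ∧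
        ¬ (κ * ((X : ℝ) ^ θ / Real.log X) ≤ splitUpTo ((X : ℝ) ^ θ) d ∧
          ((X : ℝ) ^ θ < thr d → κ * ((X : ℝ) ^ θ / Real.log X) ≤ N d))}.ncard : ℝ) ≤
      (X : ℝ) ^ (1 - δ) := by
  obtain ⟨κ, hκ, hfin⟩ := final
  refine ⟨κ, hκ, fun a b c ha hb hc θ hθ hθ1 => ?_⟩
  obtain ⟨δ, hδ, X₀, h0⟩ := hfin (-a) b (-c) (neg_ne_zero.2 ha.ne') hb (neg_ne_zero.2 hc) θ hθ hθ1
  refine ⟨δ, hδ, X₀, fun X hX => le_trans ?_ (h0 X hX)⟩
  rw [← Set.ncard_coe_finset]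
  refine Nat.cast_le.2 (Set.ncard_le_ncard (fun n hn => ?_) (Finset.finite_toSet _))
  obtain ⟨h1, h2, d, k, hd, hk, hdk, hnot⟩ := hn
  rw [mem_coe, mem_filter, mem_Ioc]
  refine ⟨⟨by omega, h2⟩, ?_⟩
  by_contra hcon
  rw [not_lt] at hcon
  apply hnot
  have h3 : d * k ^ 2 = 4 * (-a * b ^ n + -c) := by rw [hdk]; ring
  have h4 := res_le (-a) b (-c) d k hd n h3 ((X : ℝ) ^ θ) (by positivity)
  have h5 : κ * ((X : ℝ) ^ θ / Real.log X) ≤ splitUpTo ((X : ℝ) ^ θ) d :=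
    hcon.trans (by exact_mod_cast h4)
  exact ⟨h5, fun h6 => h5.trans (by exact_mod_cast split_le_N _ d h6)⟩

end Pool.Agent.NH20.EX
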