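import Pool.Agent.NH20.EX.Pair

set_option autoImplicit false

/-! The second moment over an exponential sequence. -/

namespace Pool.Agent.NH20.EX

open Finset

/-- the quadratic residue symbol of `A b ^ n + C` modulo `p` (zero if `p` is not an odd prime) -/
noncomputable def s (A b C : ℤ) (p n : ℕ) : ℝ := (jacobiSym (A * b ^ n + C) p : ℝ)

theorem s_abs (A b C : ℤ) (p n : ℕ) (hp : p ≠ 0) : |s A b C p n| ≤ 1 := by
  unfold s
  have : NeZero p := ⟨hp⟩
  rcases jacobiSym.trichotomy (A * b ^ n + C) p with h | h | h <;> rw [h] <;> simp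

/-- a set of primes for which the order of `b` is divisible by a prime larger than `z` -/
structure Gold (A b C : ℤ) (Y z : ℕ) (q : ℕ → ℕ) (G : Finset ℕ) : Prop where
  prime : ∀ p ∈ G, p.Prime
  two : ∀ p ∈ G, p ≠ 2
  le : ∀ p ∈ G, p ≤ Y
  nA : ∀ p ∈ G, ¬ (p : ℤ) ∣ A
  nb : ∀ p ∈ G, ¬ (p : ℤ) ∣ b
  nC : ∀ p ∈ G, ¬ (p : ℤ) ∣ C
  qp : ∀ p ∈ G, (q p).Prime
  qz : ∀ p ∈ G, z < q p
  qd : ∀ p ∈ G, q p ∣ orderOf (b : ZMod p)

section

variable {A b C : ℤ} {Y z : ℕ} {q : ℕ → ℕ} {G : Finset ℕ}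

theorem s_eq (A b C : ℤ) (p n : ℕ) [Fact p.Prime] : s A b C p n =
    qr p ((A : ZMod p) * (b : ZMod p) ^ n + (C : ZMod p)) := by
  unfold s qr
  rw [← jacobiSym.legendreSym.to_jacobiSym]
  unfold legendreSym
  push_cast
  rfl

theorem cast_ne {p : ℕ} {a : ℤ} (h : ¬ (p : ℤ) ∣ a) : (a : ZMod p) ≠ 0 := fun h1 =>
  h ((ZMod.intCast_zmod_eq_zero_iff_dvd a p).1 h1)

theorem order_dvd (p : ℕ) [Fact p.Prime] (hb : ¬ (p : ℤ) ∣ b) : orderOf (b : ZMod p) ∣ p - 1 :=
  ZMod.orderOf_dvd_card_sub_one (cast_ne hb)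

/-- two different primes of a gold set with different large primes -/
theorem pair_bound (hG : Gold A b C Y z q G) {p p' : ℕ} (hp : p ∈ G) (hp' : p' ∈ G)
    (hq : q p ≠ q p') (hz : 1 ≤ z) (N : ℕ) :
    |∑ n ∈ Ioc 0 N, s A b C p n * s A b C p' n| ≤
      6 * N * (Y / z ^ 2) + 3 * Y * (1 + 2 * Real.log Y) := by
  have : Fact p.Prime := ⟨hG.prime p hp⟩
  have : Fact p'.Prime := ⟨hG.prime p' hp'⟩
  have hb := cast_ne (hG.nb p hp)
  have hb' := cast_ne (hG.nb p' hp')
  set u : (ZMod p)ˣ := Units.mk0 (b : ZMod p) hb with hu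
  set v : (ZMod p')ˣ := Units.mk0 (b : ZMod p') hb' with hv
  have hpos : 0 < orderOf (u, v) := orderOf_pos _
  have : NeZero (orderOf (u, v)) := ⟨hpos.ne'⟩
  have h := incomplete (hG.two p hp) (hG.two p' hp') u v (cast_ne (hG.nA p hp))
    (cast_ne (hG.nC p hp)) (cast_ne (hG.nA p' hp')) (cast_ne (hG.nC p' hp')) N
  have e1 : ∑ n ∈ Ioc 0 N, s A b C p n * s A b C p' n = ∑ n ∈ Ioc 0 N,
      f u v (A : ZMod p) (C : ZMod p) (A : ZMod p') (C : ZMod p') n := by
    refine sum_congr rfl fun n _ => ?_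
    rw [s_eq, s_eq]
    unfold f
    rw [Units.val_pow_eq_pow_val, Units.val_pow_eq_pow_val, hu, hv, Units.val_mk0, Units.val_mk0]
  rw [e1]
  refine h.trans ?_
  set T := orderOf (u, v) with hT
  have hTr : (0 : ℝ) < T := by exact_mod_cast hpos
  have hzr : (0 : ℝ) < z := by exact_mod_cast hz
  have hpY : (p : ℝ) ≤ Y := by exact_mod_cast hG.le p hp
  have hpY' : (p' : ℝ) ≤ Y := by exact_mod_cast hG.le p' hp'
  have p0 : (0 : ℝ) ≤ p := Nat.cast_nonneg _
  have p0' : (0 : ℝ) ≤ p' := Nat.cast_nonneg _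
  have hsq : Real.sqrt (p * p') ≤ Y := by
    rw [Real.sqrt_le_left (by positivity)]
    nlinarith
  have hTle : (T : ℝ) ≤ (Y : ℝ) ^ 2 := by
    refine (order_le u v).trans ?_
    nlinarith
  have hY1 : (1 : ℝ) ≤ Y := by
    have : 1 ≤ Y := (hG.prime p hp).one_lt.le.trans (hG.le p hp)
    exact_mod_cast this
  have hlogT : Real.log T ≤ 2 * Real.log Y := by
    calc Real.log T ≤ Real.log ((Y : ℝ) ^ 2) := Real.log_le_log hTr hTle
      _ = _ := by rw [Real.log_pow]; push_cast; ring
  have hTge : (z : ℝ) ^ 2 ≤ T := by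
    have d1 : q p ∣ T := by
      have h1 : orderOf u ∣ T := by
        rw [hT, Prod.orderOf_mk]
        exact Nat.dvd_lcm_left _ _
      have h2 : orderOf u = orderOf (b : ZMod p) := by
        rw [← orderOf_units, hu, Units.val_mk0]
      exact ((hG.qd p hp).trans (by rw [h2])).trans h1
    have d2 : q p' ∣ T := by
      have h1 : orderOf v ∣ T := by
        rw [hT, Prod.orderOf_mk]
        exact Nat.dvd_lcm_right _ _
      have h2 : orderOf v = orderOf (b : ZMod p') := by
        rw [← orderOf_units, hv, Units.val_mk0]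
      exact ((hG.qd p' hp').trans (by rw [h2])).trans h1
    have d3 : q p * q p' ∣ T := Nat.Coprime.mul_dvd_of_dvd_of_dvd
      ((Nat.coprime_primes (hG.qp p hp) (hG.qp p' hp')).2 hq) d1 d2
    have d4 := Nat.le_of_dvd hpos d3
    have d5 : z * z ≤ q p * q p' := Nat.mul_le_mul (hG.qz p hp).le (hG.qz p' hp').le
    rw [pow_two]
    exact_mod_cast d5.trans d4
  have hlog0 : 0 ≤ Real.log T := Real.log_nonneg (by exact_mod_cast hpos)
  calc 3 * Real.sqrt (p * p') / T * (2 * N + T * (1 + Real.log T))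
      = 6 * N * (Real.sqrt (p * p') / T) + 3 * Real.sqrt (p * p') * (1 + Real.log T) := by
        field_simp
        ring
    _ ≤ 6 * N * (Y / z ^ 2) + 3 * Y * (1 + 2 * Real.log Y) := by
        gcongr

/-- few primes of a gold set have the same large prime -/
theorem same_q (hG : Gold A b C Y z q G) (hz : 1 ≤ z) (r : ℕ) (hr : z < r) :
    ((G.filter (fun p => q p = r)).card : ℝ) ≤ Y / z := by
  have hzr : (0 : ℝ) < z := by exact_mod_cast hz
  rw [le_div_iff₀ hzr]
  have h1 : (G.filter (fun p => q p = r)).card ≤ Y / r := by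
    have h2 : (G.filter (fun p => q p = r)).card ≤ (Ioc 0 (Y / r)).card := by
      refine card_le_card_of_injOn (fun p => (p - 1) / r) ?_ ?_
      · intro p hp
        rw [mem_coe, mem_filter] at hp
        have : Fact p.Prime := ⟨hG.prime p hp.1⟩
        have h3 : r ∣ p - 1 := by
          rw [← hp.2]
          exact (hG.qd p hp.1).trans (order_dvd p (hG.nb p hp.1))
        rw [mem_coe, mem_Ioc]
        have h4 : 1 < p := (hG.prime p hp.1).one_lt
        constructor
        · exact Nat.div_pos (Nat.le_of_dvd (by omega) h3) (by omega)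
        · exact Nat.div_le_div_right ((Nat.sub_le _ _).trans (hG.le p hp.1))
      · intro p hp p' hp' h
        rw [mem_coe, mem_filter] at hp hp'
        have : Fact p.Prime := ⟨hG.prime p hp.1⟩
        have : Fact p'.Prime := ⟨hG.prime p' hp'.1⟩
        have h3 : r ∣ p - 1 := by
          rw [← hp.2]
          exact (hG.qd p hp.1).trans (order_dvd p (hG.nb p hp.1))
        have h3' : r ∣ p' - 1 := by
          rw [← hp'.2]
          exact (hG.qd p' hp'.1).trans (order_dvd p' (hG.nb p' hp'.1))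
        have h4 := (hG.prime p hp.1).one_lt
        have h4' := (hG.prime p' hp'.1).one_lt
        have h5 : p - 1 = p' - 1 := by
          rw [← Nat.div_mul_cancel h3, ← Nat.div_mul_cancel h3']
          dsimp only at h
          rw [h]
        omega
    simpa using h2
  have h2 : (G.filter (fun p => q p = r)).card * z ≤ Y := by
    calc (G.filter (fun p => q p = r)).card * z ≤ (Y / r) * r := Nat.mul_le_mul h1 hr.le
      _ ≤ Y := Nat.div_mul_le_self _ _
  exact_mod_cast h2

theorem moment (hG : Gold A b C Y z q G) (hz : 1 ≤ z) (N : ℕ) :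
    ∑ n ∈ Ioc 0 N, (∑ p ∈ G, s A b C p n) ^ 2 ≤
      G.card * (Y / z) * N + G.card ^ 2 *
        (6 * N * (Y / z ^ 2) + 3 * Y * (1 + 2 * Real.log Y)) := by
  set E : ℝ := 6 * N * (Y / z ^ 2) + 3 * Y * (1 + 2 * Real.log Y) with hE
  have hE0 : 0 ≤ E := by
    have : 0 ≤ Real.log Y := Real.log_natCast_nonneg _
    positivity
  have h1 : ∑ n ∈ Ioc 0 N, (∑ p ∈ G, s A b C p n) ^ 2 =
      ∑ p ∈ G, ∑ p' ∈ G, ∑ n ∈ Ioc 0 N, s A b C p n * s A b C p' n := by
    have h2 : ∀ n ∈ Ioc 0 N, (∑ p ∈ G, s A b C p n) ^ 2 =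
        ∑ p ∈ G, ∑ p' ∈ G, s A b C p n * s A b C p' n := by
      intro n _
      rw [pow_two, sum_mul_sum]
    rw [sum_congr rfl h2, sum_comm]
    refine sum_congr rfl fun p _ => ?_
    rw [sum_comm]
  rw [h1]
  have h2 : ∀ p ∈ G, ∑ p' ∈ G, ∑ n ∈ Ioc 0 N, s A b C p n * s A b C p' n ≤
      (Y / z) * N + G.card * E := by
    intro p hp
    calc ∑ p' ∈ G, ∑ n ∈ Ioc 0 N, s A b C p n * s A b C p' n
        ≤ ∑ p' ∈ G, ((if q p' = q p then (N : ℝ) else 0) + E) := by
          refine sum_le_sum fun p' hp' => ?_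
          split_ifs with h
          · have h3 : ∑ n ∈ Ioc 0 N, s A b C p n * s A b C p' n ≤ ∑ n ∈ Ioc 0 N, (1 : ℝ) := by
              refine sum_le_sum fun n _ => ?_
              refine (le_abs_self _).trans ?_
              rw [abs_mul]
              exact mul_le_one₀ (s_abs _ _ _ _ _ (hG.prime p hp).ne_zero) (abs_nonneg _)
                (s_abs _ _ _ _ _ (hG.prime p' hp').ne_zero)
            rw [sum_const, Nat.card_Ioc, nsmul_eq_mul, mul_one, Nat.sub_zero] at h3
            linarith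
          · rw [zero_add]
            exact (le_abs_self _).trans (pair_bound hG hp hp' (fun h3 => h h3.symm) hz N)
      _ = ((G.filter (fun p' => q p' = q p)).card : ℝ) * N + G.card * E := by
          rw [sum_add_distrib, ← sum_filter, sum_const, sum_const, nsmul_eq_mul, nsmul_eq_mul]
      _ ≤ _ := by
          have := same_q hG hz (q p) (hG.qz p hp)
          gcongr
  calc _ ≤ ∑ p ∈ G, ((Y / z : ℝ) * N + G.card * E) := sum_le_sum h2
    _ = _ := by rw [sum_const, nsmul_eq_mul]; ring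

/-- the number of the `n` for which `p` divides the `n`-th term, on average -/
theorem zeros (hG : Gold A b C Y z q G) (hz : 1 ≤ z) (N : ℕ) :
    ∑ n ∈ Ioc 0 N, ((G.filter (fun p => s A b C p n = 0)).card : ℝ) ≤
      G.card * (N / z + 1) := by
  have hzr : (0 : ℝ) < z := by exact_mod_cast hz
  have h1 : ∑ n ∈ Ioc 0 N, ((G.filter (fun p => s A b C p n = 0)).card : ℝ) =
      ∑ p ∈ G, (((Ioc 0 N).filter (fun n => s A b C p n = 0)).card : ℝ) := by
    have h2 : ∀ n ∈ Ioc 0 N, ((G.filter (fun p => s A b C p n = 0)).card : ℝ) =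
        ∑ p ∈ G, if s A b C p n = 0 then (1 : ℝ) else 0 := by
      intro n _
      rw [sum_boole]
    rw [sum_congr rfl h2, sum_comm]
    refine sum_congr rfl fun p _ => ?_
    rw [sum_boole]
  rw [h1]
  have h2 : ∀ p ∈ G, (((Ioc 0 N).filter (fun n => s A b C p n = 0)).card : ℝ) ≤ N / z + 1 := by
    intro p hp
    have : Fact p.Prime := ⟨hG.prime p hp⟩
    set T := orderOf (b : ZMod p) with hT
    have hTpos : 0 < T := by
      have h3 := order_dvd p (hG.nb p hp)
      have h4 := (hG.prime p hp).one_lt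
      exact Nat.pos_of_dvd_of_pos h3 (by omega)
    have hTz : z < T := lt_of_lt_of_le (hG.qz p hp) (Nat.le_of_dvd hTpos (hG.qd p hp))
    have key : ∀ n ∈ (Ioc 0 N).filter (fun n => s A b C p n = 0),
        ∀ n' ∈ (Ioc 0 N).filter (fun n => s A b C p n = 0), n % T = n' % T := by
      intro n hn n' hn'
      rw [mem_filter, s_eq] at hn hn'
      have hz0 : ∀ x : ZMod p, qr p x = 0 → x = 0 := by
        intro x hx
        unfold qr at hx
        have h5 : quadraticChar (ZMod p) x = 0 := by exact_mod_cast hx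
        exact quadraticChar_eq_zero_iff.1 h5
      have h5 := hz0 _ hn.2
      have h6 := hz0 _ hn'.2
      have h7 : (A : ZMod p) * (b : ZMod p) ^ n = (A : ZMod p) * (b : ZMod p) ^ n' := by
        have := h5.trans h6.symm
        exact add_right_cancel this
      have h8 := mul_left_cancel₀ (cast_ne (hG.nA p hp)) h7
      have hb0 := cast_ne (hG.nb p hp)
      have h9 : (Units.mk0 (b : ZMod p) hb0) ^ n = (Units.mk0 (b : ZMod p) hb0) ^ n' := by
        apply Units.ext
        rw [Units.val_pow_eq_pow_val, Units.val_pow_eq_pow_val, Units.val_mk0]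
        exact h8
      have h10 := pow_eq_pow_iff_modEq.1 h9
      have h11 : orderOf (Units.mk0 (b : ZMod p) hb0) = T := by
        rw [hT, ← orderOf_units, Units.val_mk0]
      rw [h11] at h10
      exact h10
    have h3 : ((Ioc 0 N).filter (fun n => s A b C p n = 0)).card ≤ N / T + 1 := by
      have h4 : ((Ioc 0 N).filter (fun n => s A b C p n = 0)).card ≤
          (range (N / T + 1)).card := by
        refine card_le_card_of_injOn (fun n => n / T) ?_ ?_
        · intro n hn
          rw [mem_coe, mem_filter, mem_Ioc] at hn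
          rw [mem_coe, mem_range]
          exact Nat.lt_succ_of_le (Nat.div_le_div_right hn.1.2)
        · intro n hn n' hn' h
          have h5 := key n (mem_coe.1 hn) n' (mem_coe.1 hn')
          dsimp only at h
          rw [← Nat.div_add_mod n T, ← Nat.div_add_mod n' T, h, h5]
      rwa [card_range] at h4
    have h4 : ((N / T : ℕ) : ℝ) ≤ N / z := by
      calc ((N / T : ℕ) : ℝ) ≤ N / T := Nat.cast_div_le
        _ ≤ N / z := by
          gcongr
    calc (((Ioc 0 N).filter (fun n => s A b C p n = 0)).card : ℝ) ≤ ((N / T + 1 : ℕ) : ℝ) := by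
          exact_mod_cast h3
      _ ≤ _ := by push_cast; linarith
  calc _ ≤ ∑ p ∈ G, ((N : ℝ) / z + 1) := sum_le_sum h2
    _ = _ := by rw [sum_const, nsmul_eq_mul]

/-- all but few `n` have many residues -/
theorem except (hG : Gold A b C Y z q G) (hz : 1 ≤ z) (hcard : 0 < G.card) (N : ℕ) :
    (((Ioc 0 N).filter (fun n => ((G.filter (fun p => s A b C p n = 1)).card : ℝ) <
      G.card / 4)).card : ℝ) ≤ 4 * (N / z + 1) + 16 * ((Y / z) * N / G.card +
        (6 * N * (Y / z ^ 2) + 3 * Y * (1 + 2 * Real.log Y))) := by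
  have hg : (0 : ℝ) < G.card := by exact_mod_cast hcard
  have h1 : ∀ n : ℕ, ∑ p ∈ G, s A b C p n =
      2 * ((G.filter (fun p => s A b C p n = 1)).card : ℝ) +
        ((G.filter (fun p => s A b C p n = 0)).card : ℝ) - G.card := by
    intro n
    have h2 : ∀ p ∈ G, s A b C p n = 2 * (if s A b C p n = 1 then (1 : ℝ) else 0) +
        (if s A b C p n = 0 then (1 : ℝ) else 0) - 1 := by
      intro p hp
      have : NeZero p := ⟨(hG.prime p hp).ne_zero⟩
      unfold s
      rcases jacobiSym.trichotomy (A * b ^ n + C) p with h | h | h <;> rw [h] <;> norm_num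
    rw [sum_congr rfl h2, sum_sub_distrib, sum_add_distrib, ← mul_sum, sum_boole, sum_boole,
      sum_const, nsmul_eq_mul, mul_one]
  set B1 := (Ioc 0 N).filter (fun n => (G.card : ℝ) / 4 <
    ((G.filter (fun p => s A b C p n = 0)).card : ℝ)) with hB1
  set B2 := (Ioc 0 N).filter (fun n => (G.card : ℝ) / 4 < |∑ p ∈ G, s A b C p n|) with hB2
  have hsub : (Ioc 0 N).filter (fun n => ((G.filter (fun p => s A b C p n = 1)).card : ℝ) <
      G.card / 4) ⊆ B1 ∪ B2 := by
    intro n hn
    rw [mem_filter] at hn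
    rw [mem_union, hB1, hB2, mem_filter, mem_filter]
    by_cases h : (G.card : ℝ) / 4 < ((G.filter (fun p => s A b C p n = 0)).card : ℝ)
    · left; exact ⟨hn.1, h⟩
    · right
      refine ⟨hn.1, ?_⟩
      have h2 := h1 n
      have h3 := neg_abs_le (∑ p ∈ G, s A b C p n)
      linarith [hn.2]
  have c1 : (B1.card : ℝ) * (G.card / 4) ≤ G.card * (N / z + 1) := by
    calc (B1.card : ℝ) * (G.card / 4) = ∑ n ∈ B1, (G.card : ℝ) / 4 := by
          rw [sum_const, nsmul_eq_mul]
      _ ≤ ∑ n ∈ B1, ((G.filter (fun p => s A b C p n = 0)).card : ℝ) :=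
          sum_le_sum fun n hn => by
            rw [hB1, mem_filter] at hn
            exact hn.2.le
      _ ≤ ∑ n ∈ Ioc 0 N, ((G.filter (fun p => s A b C p n = 0)).card : ℝ) :=
          sum_le_sum_of_subset_of_nonneg (filter_subset _ _) fun _ _ _ => Nat.cast_nonneg _
      _ ≤ _ := zeros hG hz N
  have c2 : (B2.card : ℝ) * (G.card / 4) ^ 2 ≤ G.card * (Y / z) * N + G.card ^ 2 *
        (6 * N * (Y / z ^ 2) + 3 * Y * (1 + 2 * Real.log Y)) := by
    calc (B2.card : ℝ) * (G.card / 4) ^ 2 = ∑ n ∈ B2, ((G.card : ℝ) / 4) ^ 2 := by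
          rw [sum_const, nsmul_eq_mul]
      _ ≤ ∑ n ∈ B2, (∑ p ∈ G, s A b C p n) ^ 2 :=
          sum_le_sum fun n hn => by
            rw [hB2, mem_filter] at hn
            rw [← sq_abs (∑ p ∈ G, s A b C p n)]
            exact pow_le_pow_left₀ (by positivity) hn.2.le 2
      _ ≤ ∑ n ∈ Ioc 0 N, (∑ p ∈ G, s A b C p n) ^ 2 :=
          sum_le_sum_of_subset_of_nonneg (filter_subset _ _) fun _ _ _ => sq_nonneg _
      _ ≤ _ := moment hG hz N
  have d1 : (B1.card : ℝ) ≤ 4 * (N / z + 1) := by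
    have : (B1.card : ℝ) * (G.card / 4) ≤ (4 * (N / z + 1)) * (G.card / 4) := by
      refine c1.trans (le_of_eq ?_)
      ring
    exact le_of_mul_le_mul_right this (by positivity)
  have d2 : (B2.card : ℝ) ≤ 16 * ((Y / z) * N / G.card +
        (6 * N * (Y / z ^ 2) + 3 * Y * (1 + 2 * Real.log Y))) := by
    have : (B2.card : ℝ) * (G.card / 4) ^ 2 ≤ (16 * ((Y / z) * N / G.card +
        (6 * N * (Y / z ^ 2) + 3 * Y * (1 + 2 * Real.log Y)))) * (G.card / 4) ^ 2 := by
      refine c2.trans (le_of_eq ?_)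
      field_simp
      ring
    exact le_of_mul_le_mul_right this (by positivity)
  have h3 := (card_le_card hsub).trans (card_union_le _ _)
  have h4 : (((Ioc 0 N).filter (fun n => ((G.filter (fun p => s A b C p n = 1)).card : ℝ) <
      G.card / 4)).card : ℝ) ≤ (B1.card : ℝ) + B2.card := by exact_mod_cast h3
  linarith

end

end Pool.Agent.NH20.EX
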