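import Pool.Agent.NH20.EX.Quad
import Pool.Agent.NH20.EX.Grp
import Pool.Agent.Y951.MW.Crt

set_option autoImplicit false

/-! Complete and incomplete sums over an exponential sequence modulo two primes. -/

namespace Pool.Agent.NH20.EX

open Finset

section

variable {p p' : ℕ} [hp : Fact p.Prime] [hp' : Fact p'.Prime]

theorem card_fst (u : (ZMod p)ˣ) (v : (ZMod p')ˣ) [NeZero (orderOf (u, v))]
    (r : ZMod (orderOf (u, v))) :
    ((univ.filter (fun r' : ZMod (orderOf (u, v)) => u ^ r.val = u ^ r'.val)).card : ℝ) ≤ p' := by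
  have h1 : (univ.filter (fun r' : ZMod (orderOf (u, v)) => u ^ r.val = u ^ r'.val)).card ≤
      (univ : Finset (ZMod p')ˣ).card := by
    refine card_le_card_of_injOn (fun r' => v ^ r'.val) (fun _ _ => mem_coe.2 (mem_univ _)) ?_
    intro a ha b hb h
    rw [mem_coe, mem_filter] at ha hb
    have h2 : (u, v) ^ a.val = (u, v) ^ b.val := by
      rw [Prod.pow_mk, Prod.pow_mk, ← ha.2, hb.2]
      exact Prod.ext rfl h
    have h3 := pow_injOn_Iio_orderOf (x := (u, v)) (Set.mem_Iio.2 (ZMod.val_lt a))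
      (Set.mem_Iio.2 (ZMod.val_lt b)) h2
    exact ZMod.val_injective _ h3
  rw [card_univ, ZMod.card_units_eq_totient, Nat.totient_prime hp'.out] at h1
  exact_mod_cast h1.trans (Nat.sub_le _ _)

theorem card_snd (u : (ZMod p)ˣ) (v : (ZMod p')ˣ) [NeZero (orderOf (u, v))]
    (r : ZMod (orderOf (u, v))) :
    ((univ.filter (fun r' : ZMod (orderOf (u, v)) => v ^ r.val = v ^ r'.val)).card : ℝ) ≤ p := by
  have h1 : (univ.filter (fun r' : ZMod (orderOf (u, v)) => v ^ r.val = v ^ r'.val)).card ≤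
      (univ : Finset (ZMod p)ˣ).card := by
    refine card_le_card_of_injOn (fun r' => u ^ r'.val) (fun _ _ => mem_coe.2 (mem_univ _)) ?_
    intro a ha b hb h
    rw [mem_coe, mem_filter] at ha hb
    have h2 : (u, v) ^ a.val = (u, v) ^ b.val := by
      rw [Prod.pow_mk, Prod.pow_mk, ← ha.2, hb.2]
      exact Prod.ext h rfl
    have h3 := pow_injOn_Iio_orderOf (x := (u, v)) (Set.mem_Iio.2 (ZMod.val_lt a))
      (Set.mem_Iio.2 (ZMod.val_lt b)) h2
    exact ZMod.val_injective _ h3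
  rw [card_univ, ZMod.card_units_eq_totient, Nat.totient_prime hp.out] at h1
  exact_mod_cast h1.trans (Nat.sub_le _ _)

theorem card_both (u : (ZMod p)ˣ) (v : (ZMod p')ˣ) [NeZero (orderOf (u, v))]
    (r : ZMod (orderOf (u, v))) :
    ((univ.filter (fun r' : ZMod (orderOf (u, v)) => u ^ r.val = u ^ r'.val ∧
      v ^ r.val = v ^ r'.val)).card : ℝ) ≤ 1 := by
  have h1 : (univ.filter (fun r' : ZMod (orderOf (u, v)) => u ^ r.val = u ^ r'.val ∧
      v ^ r.val = v ^ r'.val)).card ≤ 1 := by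
    rw [card_le_one]
    intro a ha b hb
    rw [mem_filter] at ha hb
    have h2 : (u, v) ^ a.val = (u, v) ^ b.val := by
      rw [Prod.pow_mk, Prod.pow_mk, ← ha.2.1, ← ha.2.2, hb.2.1, hb.2.2]
    have h3 := pow_injOn_Iio_orderOf (x := (u, v)) (Set.mem_Iio.2 (ZMod.val_lt a))
      (Set.mem_Iio.2 (ZMod.val_lt b)) h2
    exact ZMod.val_injective _ h3
  exact_mod_cast h1

theorem order_le (u : (ZMod p)ˣ) (v : (ZMod p')ˣ) [NeZero (orderOf (u, v))] :
    (orderOf (u, v) : ℝ) ≤ p * p' := by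
  have h1 : orderOf (u, v) ≤ Fintype.card ((ZMod p)ˣ × (ZMod p')ˣ) := orderOf_le_card_univ
  rw [Fintype.card_prod, ZMod.card_units_eq_totient, ZMod.card_units_eq_totient,
    Nat.totient_prime hp.out, Nat.totient_prime hp'.out] at h1
  have h2 : (p - 1) * (p' - 1) ≤ p * p' := Nat.mul_le_mul (Nat.sub_le _ _) (Nat.sub_le _ _)
  exact_mod_cast h1.trans h2

/-- the product of the two quadratic characters along the sequence -/
noncomputable def f (u : (ZMod p)ˣ) (v : (ZMod p')ˣ) (a c : ZMod p) (a' c' : ZMod p') (n : ℕ) : ℝ :=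
  qr p (a * (u ^ n : (ZMod p)ˣ) + c) * qr p' (a' * (v ^ n : (ZMod p')ˣ) + c')

theorem f_abs (u : (ZMod p)ˣ) (v : (ZMod p')ˣ) (a c : ZMod p) (a' c' : ZMod p') (n : ℕ) :
    |f u v a c a' c' n| ≤ 1 := by
  unfold f
  rw [abs_mul]
  exact mul_le_one₀ (qr_abs _) (abs_nonneg _) (qr_abs _)

theorem complete (hp2 : p ≠ 2) (hp2' : p' ≠ 2) (u : (ZMod p)ˣ) (v : (ZMod p')ˣ)
    [NeZero (orderOf (u, v))] {a c : ZMod p} {a' c' : ZMod p'} (ha : a ≠ 0) (hc : c ≠ 0)
    (ha' : a' ≠ 0) (hc' : c' ≠ 0) (k : ZMod (orderOf (u, v))) :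
    ‖∑ r : ZMod (orderOf (u, v)), (f u v a c a' c' r.val : ℂ) *
      (ZMod.stdAddChar (k * r) : ℂ)‖ ≤ 3 * Real.sqrt (p * p') := by
  set F : (ZMod p)ˣ × (ZMod p')ˣ → ℝ := fun x => qr p (a * x.1 + c) * qr p' (a' * x.2 + c')
    with hF
  have hpp : (0 : ℝ) ≤ (p : ℝ) * p' := by positivity
  have key : ‖S (u, v) F k 1‖ ^ 2 ≤ 9 * (p * p') := by
    refine total (u, v) F k _ fun r => ?_
    have h1 : ∀ r' : ZMod (orderOf (u, v)),
        |∑ x : (ZMod p)ˣ × (ZMod p')ˣ, F (x * (u, v) ^ r.val) * F (x * (u, v) ^ r'.val)| ≤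
        (p * p' * (if u ^ r.val = u ^ r'.val ∧ v ^ r.val = v ^ r'.val then (1 : ℝ) else 0) +
          2 * p * (if u ^ r.val = u ^ r'.val then (1 : ℝ) else 0) +
          2 * p' * (if v ^ r.val = v ^ r'.val then (1 : ℝ) else 0)) + 4 := by
      intro r'
      have h2 : ∑ x : (ZMod p)ˣ × (ZMod p')ˣ, F (x * (u, v) ^ r.val) * F (x * (u, v) ^ r'.val) =
          (∑ g : (ZMod p)ˣ, qr p (a * (u ^ r.val : (ZMod p)ˣ) * g + c) *
            qr p (a * (u ^ r'.val : (ZMod p)ˣ) * g + c)) *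
          (∑ g : (ZMod p')ˣ, qr p' (a' * (v ^ r.val : (ZMod p')ˣ) * g + c') *
            qr p' (a' * (v ^ r'.val : (ZMod p')ˣ) * g + c')) := by
        rw [Fintype.sum_prod_type, sum_mul_sum]
        refine sum_congr rfl fun g _ => sum_congr rfl fun h _ => ?_
        rw [hF]
        dsimp only [Prod.pow_mk, Prod.mk_mul_mk]
        push_cast
        rw [show a * ((g : ZMod p) * (u : ZMod p) ^ r.val) + c = a * (u : ZMod p) ^ r.val * g + c by
            ring,
          show a * ((g : ZMod p) * (u : ZMod p) ^ r'.val) + c = a * (u : ZMod p) ^ r'.val * g + c by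
            ring,
          show a' * ((h : ZMod p') * (v : ZMod p') ^ r.val) + c' =
            a' * (v : ZMod p') ^ r.val * h + c' by ring,
          show a' * ((h : ZMod p') * (v : ZMod p') ^ r'.val) + c' =
            a' * (v : ZMod p') ^ r'.val * h + c' by ring]
        ring
      rw [h2, abs_mul]
      have g1 : |∑ g : (ZMod p)ˣ, qr p (a * (u ^ r.val : (ZMod p)ˣ) * g + c) *
            qr p (a * (u ^ r'.val : (ZMod p)ˣ) * g + c)| ≤
          if u ^ r.val = u ^ r'.val then (p : ℝ) else 2 := by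
        split_ifs with h
        · exact quad_sum'
        · exact quad_sum hp2 (mul_ne_zero ha (Units.ne_zero _)) (mul_ne_zero ha (Units.ne_zero _))
            hc (fun h3 => h (Units.ext (mul_left_cancel₀ ha h3)))
      have g2 : |∑ g : (ZMod p')ˣ, qr p' (a' * (v ^ r.val : (ZMod p')ˣ) * g + c') *
            qr p' (a' * (v ^ r'.val : (ZMod p')ˣ) * g + c')| ≤
          if v ^ r.val = v ^ r'.val then (p' : ℝ) else 2 := by
        split_ifs with h
        · exact quad_sum'
        · exact quad_sum hp2' (mul_ne_zero ha' (Units.ne_zero _))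
            (mul_ne_zero ha' (Units.ne_zero _)) hc'
            (fun h3 => h (Units.ext (mul_left_cancel₀ ha' h3)))
      refine (mul_le_mul g1 g2 (abs_nonneg _) (by split_ifs <;> positivity)).trans ?_
      have q1 : (0 : ℝ) ≤ p := Nat.cast_nonneg _
      have q2 : (0 : ℝ) ≤ p' := Nat.cast_nonneg _
      by_cases h : u ^ r.val = u ^ r'.val <;> by_cases h' : v ^ r.val = v ^ r'.val
      · rw [if_pos h, if_pos h', if_pos ⟨h, h'⟩, if_pos h, if_pos h']
        nlinarith
      · rw [if_pos h, if_neg h', if_neg (fun h3 => h' h3.2), if_pos h, if_neg h']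
        nlinarith
      · rw [if_neg h, if_pos h', if_neg (fun h3 => h h3.1), if_neg h, if_pos h']
        nlinarith
      · rw [if_neg h, if_neg h', if_neg (fun h3 => h h3.1), if_neg h, if_neg h']
        nlinarith
    refine (sum_le_sum fun r' _ => h1 r').trans ?_
    rw [sum_add_distrib, sum_add_distrib, sum_add_distrib, ← mul_sum, ← mul_sum, ← mul_sum,
      sum_boole, sum_boole, sum_boole, sum_const, card_univ, ZMod.card, nsmul_eq_mul]
    have c1 := card_both u v r
    have c2 := card_fst u v r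
    have c3 := card_snd u v r
    have c4 := order_le u v
    have q1 : (0 : ℝ) ≤ p := Nat.cast_nonneg _
    have q2 : (0 : ℝ) ≤ p' := Nat.cast_nonneg _
    have e1 := mul_le_mul_of_nonneg_left c1 hpp
    have e2 := mul_le_mul_of_nonneg_left c2 q1
    have e3 := mul_le_mul_of_nonneg_left c3 q2
    nlinarith
  have h3 : S (u, v) F k 1 = ∑ r : ZMod (orderOf (u, v)), (f u v a c a' c' r.val : ℂ) *
      (ZMod.stdAddChar (k * r) : ℂ) := by
    unfold S f
    refine sum_congr rfl fun r _ => ?_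
    rw [one_mul, hF]
    rfl
  rw [h3] at key
  rw [show (9 : ℝ) * (p * p') = (3 * Real.sqrt (p * p')) ^ 2 by
    rw [mul_pow, Real.sq_sqrt hpp]; norm_num] at key
  exact le_of_sq_le_sq key (by positivity)

theorem f_period (u : (ZMod p)ˣ) (v : (ZMod p')ˣ) [NeZero (orderOf (u, v))] (a c : ZMod p)
    (a' c' : ZMod p') (n : ℕ) :
    f u v a c a' c' ((n : ZMod (orderOf (u, v))).val) = f u v a c a' c' n := by
  have h1 : (u, v) ^ ((n : ZMod (orderOf (u, v))).val) = (u, v) ^ n := by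
    rw [ZMod.val_natCast, pow_mod_orderOf]
  rw [Prod.pow_mk, Prod.pow_mk, Prod.mk.injEq] at h1
  unfold f
  rw [h1.1, h1.2]

theorem incomplete (hp2 : p ≠ 2) (hp2' : p' ≠ 2) (u : (ZMod p)ˣ) (v : (ZMod p')ˣ)
    [NeZero (orderOf (u, v))] {a c : ZMod p} {a' c' : ZMod p'} (ha : a ≠ 0) (hc : c ≠ 0)
    (ha' : a' ≠ 0) (hc' : c' ≠ 0) (N : ℕ) :
    |∑ n ∈ Ioc 0 N, f u v a c a' c' n| ≤
      3 * Real.sqrt (p * p') / orderOf (u, v) *
        (2 * N + orderOf (u, v) * (1 + Real.log (orderOf (u, v)))) := by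
  have h := Pool.Agent.Y951.MW.incompleteM (M := orderOf (u, v))
    (g := fun r => (f u v a c a' c' r.val : ℂ)) (Γ := 3 * Real.sqrt (p * p')) (by positivity)
    (fun k => complete hp2 hp2' u v ha hc ha' hc' k) 0 (u := 0) (v := N) (N := N) le_rfl
  have h1 : ∑ n ∈ Ioc 0 N, (f u v a c a' c' ((n : ZMod (orderOf (u, v))).val) : ℂ) *
      Pool.Agent.Y933.KD.e (n * (0 : ℝ)) = ((∑ n ∈ Ioc 0 N, f u v a c a' c' n : ℝ) : ℂ) := by
    rw [Complex.ofReal_sum]
    refine sum_congr rfl fun n _ => ?_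
    rw [f_period, mul_zero]
    have : Pool.Agent.Y933.KD.e (0 : ℝ) = 1 := by
      unfold Pool.Agent.Y933.KD.e
      simp
    rw [this, mul_one]
  rw [h1, Complex.norm_real, Real.norm_eq_abs] at h
  exact h

end

end Pool.Agent.NH20.EX
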