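import Pool.Agent.R856.CM8

set_option autoImplicit false

/-! Complete sums of quadratic characters along an exponential sequence. -/

namespace Pool.Agent.NH20.EX

open Finset

section

variable {p : ℕ} [hp : Fact p.Prime]

/-- the quadratic character as a real number -/
noncomputable def qr (p : ℕ) [Fact p.Prime] (x : ZMod p) : ℝ := ((quadraticChar (ZMod p) x : ℤ) : ℝ)

theorem qr_abs (x : ZMod p) : |qr p x| ≤ 1 := by
  unfold qr
  have : |quadraticChar (ZMod p) x| ≤ 1 := by
    by_cases h : x = 0
    · rw [h, MulChar.map_zero]; simp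
    · rcases quadraticChar_dichotomy h with h | h <;> rw [h] <;> simp
  exact_mod_cast this

theorem quad_sum (hp2 : p ≠ 2) {α β c : ZMod p} (hα : α ≠ 0) (hβ : β ≠ 0) (hc : c ≠ 0)
    (h : α ≠ β) :
    |∑ g : (ZMod p)ˣ, qr p (α * g + c) * qr p (β * g + c)| ≤ 2 := by
  have e1 : ∑ g : ZMod p, quadraticChar (ZMod p) (α * g + c) * quadraticChar (ZMod p) (β * g + c) =
      - quadraticChar (ZMod p) (α * β) := by
    have hδ : c / β - c / α ≠ 0 := by
      intro h0
      apply h
      have h1 : c / β = c / α := sub_eq_zero.1 h0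
      rw [div_eq_div_iff hβ hα] at h1
      exact mul_left_cancel₀ hc h1
    have h2 : ∀ g : ZMod p, quadraticChar (ZMod p) (α * g + c) *
        quadraticChar (ZMod p) (β * g + c) = quadraticChar (ZMod p) (α * β) *
        (quadraticChar (ZMod p) (g + c / α) * quadraticChar (ZMod p) (g + c / α +
          (c / β - c / α))) := by
      intro g
      rw [← map_mul, ← map_mul, ← map_mul]
      congr 1
      field_simp
      ring
    rw [sum_congr rfl (fun g _ => h2 g), ← mul_sum]
    have h3 : ∑ g : ZMod p, quadraticChar (ZMod p) (g + c / α) *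
        quadraticChar (ZMod p) (g + c / α + (c / β - c / α)) =
        ∑ g : ZMod p, quadraticChar (ZMod p) g * quadraticChar (ZMod p) (g + (c / β - c / α)) :=
      Equiv.sum_comp (Equiv.addRight (c / α)) (fun g => quadraticChar (ZMod p) g *
        quadraticChar (ZMod p) (g + (c / β - c / α)))
    rw [h3, Pool.Agent.R856.CM.J_sum hp2, if_neg hδ]
    ring
  have e2 : ∑ g : (ZMod p)ˣ, quadraticChar (ZMod p) (α * g + c) *
      quadraticChar (ZMod p) (β * g + c) =
      (∑ g : ZMod p, quadraticChar (ZMod p) (α * g + c) * quadraticChar (ZMod p) (β * g + c)) -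
        1 := by
    have h1 : ∑ g : ZMod p, quadraticChar (ZMod p) (α * g + c) *
        quadraticChar (ZMod p) (β * g + c) = 1 + ∑ g ∈ univ.filter (fun g : ZMod p => g ≠ 0),
        quadraticChar (ZMod p) (α * g + c) * quadraticChar (ZMod p) (β * g + c) := by
      rw [← sum_filter_add_sum_filter_not univ (fun g : ZMod p => g = 0)]
      congr 1
      rw [filter_eq', if_pos (mem_univ _), sum_singleton, mul_zero, mul_zero, zero_add,
        Pool.Agent.R856.CM.char_sq, if_neg hc]
    rw [h1]
    have h2 : ∑ g : (ZMod p)ˣ, quadraticChar (ZMod p) (α * g + c) *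
        quadraticChar (ZMod p) (β * g + c) = ∑ g ∈ univ.filter (fun g : ZMod p => g ≠ 0),
        quadraticChar (ZMod p) (α * g + c) * quadraticChar (ZMod p) (β * g + c) := by
      refine sum_nbij (fun g : (ZMod p)ˣ => (g : ZMod p)) (fun g _ => ?_) ?_ ?_ (fun g _ => rfl)
      · rw [mem_filter]
        exact ⟨mem_univ _, g.ne_zero⟩
      · intro a _ b _ h
        exact Units.ext h
      · intro g hg
        rw [mem_coe, mem_filter] at hg
        exact ⟨Units.mk0 g hg.2, mem_coe.2 (mem_univ _), rfl⟩
    rw [h2]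
    ring
  have e3 : ∑ g : (ZMod p)ˣ, qr p (α * g + c) * qr p (β * g + c) =
      ((- quadraticChar (ZMod p) (α * β) - 1 : ℤ) : ℝ) := by
    rw [← e1, ← e2]
    push_cast
    rfl
  rw [e3, ← Int.cast_abs]
  have h4 : |quadraticChar (ZMod p) (α * β)| ≤ 1 := by
    by_cases h : α * β = 0
    · rw [h, MulChar.map_zero]; simp
    · rcases quadraticChar_dichotomy h with h | h <;> rw [h] <;> simp
  have h5 : |(- quadraticChar (ZMod p) (α * β) - 1)| ≤ 2 := by
    rw [abs_le] at h4 ⊢
    constructor <;> linarith [h4.1, h4.2]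
  exact_mod_cast h5

theorem quad_sum' {α β c : ZMod p} : |∑ g : (ZMod p)ˣ, qr p (α * g + c) * qr p (β * g + c)| ≤ p := by
  calc |∑ g : (ZMod p)ˣ, qr p (α * g + c) * qr p (β * g + c)|
      ≤ ∑ g : (ZMod p)ˣ, |qr p (α * g + c) * qr p (β * g + c)| := abs_sum_le_sum_abs _ _
    _ ≤ ∑ g : (ZMod p)ˣ, (1 : ℝ) := by
        refine sum_le_sum fun g _ => ?_
        rw [abs_mul]
        exact mul_le_one₀ (qr_abs _) (abs_nonneg _) (qr_abs _)
    _ ≤ p := by
        rw [sum_const, nsmul_eq_mul, mul_one, card_univ, ZMod.card_units_eq_totient,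
          Nat.totient_prime hp.out]
        exact_mod_cast Nat.sub_le _ _

end

end Pool.Agent.NH20.EX
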